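import Mathlib
import Pool.Agent.H94.IC.Targets2

open MeasureTheory Set Filter Topology Metric
open scoped ENNReal NNReal ContDiff RealInnerProductSpace

namespace Pool.Agent.H30.IC

open Pool.Agent.H94.IC

lemma gr_apply (f : E → ℝ) (x : E) (i : Fin 3) : (gr f x) i = pd i f x := by
  have h := inner_gradient_left (𝕜 := ℝ) (f := f) (x := x) (y := ev i)
  rw [pd, ← h, EuclideanSpace.inner_single_right]
  simp [gr]

lemma gr_eq_sum (f : E → ℝ) (x : E) : gr f x = ∑ i : Fin 3, pd i f x • ev i := by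
  ext j
  rw [gr_apply]
  simp [Finset.sum_apply, Pi.single_apply]

lemma memLp_gr_iff {μ : Measure E} (f : E → ℝ) :
    MemLp (gr f) 2 μ ↔ ∀ i : Fin 3, MemLp (pd i f) 2 μ := by
  constructor
  · intro h i
    have h1 : MemLp (fun x => (EuclideanSpace.proj (𝕜 := ℝ) i : E →L[ℝ] ℝ) (gr f x)) 2 μ :=
      ContinuousLinearMap.comp_memLp' _ h
    have h2 : (pd i f) = fun x => (EuclideanSpace.proj (𝕜 := ℝ) i : E →L[ℝ] ℝ) (gr f x) := by
      ext1 x
      exact (gr_apply f x i).symm
    rw [h2]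
    exact h1
  · intro h
    have h1 : MemLp (fun x => ∑ i : Fin 3, pd i f x • ev i) 2 μ := by
      refine memLp_finsetSum _ fun i _ => ?_
      exact ContinuousLinearMap.comp_memLp' ((ContinuousLinearMap.id ℝ ℝ).smulRight (ev i)) (h i)
    have h2 : gr f = fun x => ∑ i : Fin 3, pd i f x • ev i := by
      ext1 x
      exact gr_eq_sum f x
    rw [h2]
    exact h1

lemma norm_gr_sq (f : E → ℝ) (x : E) : ‖gr f x‖ ^ 2 = ∑ i : Fin 3, (pd i f x) ^ 2 := by
  rw [EuclideanSpace.norm_sq_eq]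
  simp [gr_apply]

lemma isOpen_HB (r : ℝ) : IsOpen (HB r) := by
  have h1 : Continuous fun y : E => ‖y‖ := continuous_norm
  have h2 : Continuous fun y : E => y 2 := by fun_prop
  exact (isOpen_lt h1 continuous_const).inter (isOpen_lt continuous_const h2)

lemma HB_mono {r s : ℝ} (h : r ≤ s) : HB r ⊆ HB s := fun _ hy => ⟨hy.1.trans_le h, hy.2⟩

/-- upper half space -/
def Up : Set E := {y | 0 < y 2}

lemma isOpen_Up : IsOpen Up := by
  have h2 : Continuous fun y : E => y 2 := by fun_prop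
  exact isOpen_lt continuous_const h2

lemma memLp_translate {f : E → ℝ} {A B : Set E} (v : E) (hA : MeasurableSet A)
    (h : MemLp f 2 (volume.restrict A)) (hAB : ∀ y ∈ B, y + v ∈ A) :
    MemLp (fun y => f (y + v)) 2 (volume.restrict B) := by
  have h1 := (measurePreserving_add_right (volume : Measure E) v).restrict_preimage hA
  have h2 := h.comp_measurePreserving h1
  exact h2.mono_measure (Measure.restrict_mono (fun y hy => hAB y hy) le_rfl)

lemma memLp_of_zero_off {f : E → ℝ} {S U : Set E} (hS : MeasurableSet S) (hU : MeasurableSet U)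
    (h : MemLp f 2 (volume.restrict S)) (hz : ∀ y ∈ U, y ∉ S → f y = 0) :
    MemLp f 2 (volume.restrict U) := by
  have h1 : MemLp (S.indicator f) 2 volume := (memLp_indicator_iff_restrict hS).2 h
  refine (h1.restrict U).ae_eq ?_
  refine ae_restrict_of_forall_mem hU fun y hy => ?_
  by_cases hyS : y ∈ S
  · rw [indicator_of_mem hyS]
  · rw [indicator_of_notMem hyS, hz y hy hyS]

lemma pd_comp_add (f : E → ℝ) (v x : E) (i : Fin 3) : pd i (fun y => f (y + v)) x = pd i f (x + v) := by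
  simp only [pd]
  rw [fderiv_comp_add_right]

lemma pd_of_eventuallyEq {f g : E → ℝ} {x : E} (h : f =ᶠ[𝓝 x] g) (i : Fin 3) : pd i f x = pd i g x := by
  simp only [pd]
  rw [h.fderiv_eq]

lemma pd_of_eventually_zero {f : E → ℝ} {x : E} (h : ∀ᶠ y in 𝓝 x, f y = 0) (i : Fin 3) : pd i f x = 0 := by
  have h1 : f =ᶠ[𝓝 x] fun _ => (0 : ℝ) := h
  rw [pd_of_eventuallyEq h1]
  simp [pd]

lemma contDiffOn_pd {f : E → ℝ} {U : Set E} (hU : IsOpen U) (hf : ContDiffOn ℝ ∞ f U) (i : Fin 3) :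
    ContDiffOn ℝ ∞ (pd i f) U := by
  have h1 : ContDiffOn ℝ ∞ (fderiv ℝ f) U := hf.fderiv_of_isOpen hU (by norm_num)
  exact h1.clm_apply contDiffOn_const

lemma contDiffAt_pd {f : E → ℝ} {x : E} (hf : ContDiffAt ℝ ∞ f x) (i : Fin 3) :
    ContDiffAt ℝ ∞ (pd i f) x := by
  have h1 : ContDiffAt ℝ ∞ (fderiv ℝ f) x := hf.fderiv_right (by norm_num)
  exact h1.clm_apply contDiffAt_const

end Pool.Agent.H30.IC
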