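import Mathlib
import Pool.Agent.H30.IC.Base

open MeasureTheory Set Filter Topology Metric
open scoped ENNReal NNReal ContDiff RealInnerProductSpace

namespace Pool.Agent.H30.IC

open Pool.Agent.H94.IC

lemma cs_interval {f : ℝ → ℝ} {t : ℝ} (ht : 0 < t) (hf : ContinuousOn f (Icc 0 t)) :
    (∫ s in (0:ℝ)..t, f s) ^ 2 ≤ t * ∫ s in (0:ℝ)..t, (f s) ^ 2 := by
  have hu : uIcc 0 t = Icc 0 t := uIcc_of_le ht.le
  have i1 : IntervalIntegrable f volume 0 t := (hu ▸ hf).intervalIntegrable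
  have i2 : IntervalIntegrable (fun s => f s ^ 2) volume 0 t :=
    (hu ▸ (hf.pow 2) : ContinuousOn (fun s => f s ^ 2) (uIcc 0 t)).intervalIntegrable
  set I := ∫ s in (0:ℝ)..t, f s with hI
  set J := ∫ s in (0:ℝ)..t, (f s) ^ 2 with hJ
  have h0 : 0 ≤ ∫ s in (0:ℝ)..t, (f s - I / t) ^ 2 :=
    intervalIntegral.integral_nonneg ht.le fun s _ => sq_nonneg _
  have h1 : ∫ s in (0:ℝ)..t, (f s - I / t) ^ 2 = J - (2 * (I / t)) * I + (I / t) ^ 2 * t := by
    have e : (fun s => (f s - I / t) ^ 2) = fun s => (f s ^ 2 - (2 * (I / t)) * f s) + (I / t) ^ 2 := by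
      ext s; ring
    rw [e, intervalIntegral.integral_add (i2.sub (i1.const_mul _)) intervalIntegrable_const,
      intervalIntegral.integral_sub i2 (i1.const_mul _), intervalIntegral.integral_const_mul,
      intervalIntegral.integral_const]
    simp; ring
  rw [h1] at h0
  have h2 : J - (2 * (I / t)) * I + (I / t) ^ 2 * t = (t * J - I ^ 2) / t := by
    field_simp; ring
  rw [h2] at h0
  have h3 : 0 ≤ t * J - I ^ 2 := by
    by_contra hc
    push Not at hc
    have : (t * J - I ^ 2) / t < 0 := div_neg_of_neg_of_pos hc ht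
    linarith
  linarith

lemma norm_ev (k : Fin 3) : ‖ev k‖ = 1 := by simp

lemma add_mem_HB {r ρ s t : ℝ} {k : Fin 3} (hk : k ≠ 2) (hρ : ρ + t ≤ r) (hs : 0 ≤ s) (hst : s ≤ t)
    {y : E} (hy : y ∈ HB ρ) : y + s • ev k ∈ HB r := by
  constructor
  · calc ‖y + s • ev k‖ ≤ ‖y‖ + ‖s • ev k‖ := norm_add_le _ _
      _ = ‖y‖ + s := by rw [norm_smul, norm_ev, Real.norm_of_nonneg hs, mul_one]
      _ < r := by have := hy.1; linarith
  · have h := hy.2
    have : (y + s • ev k) 2 = y 2 := by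
      simp [hk.symm]
    rw [this]; exact h

lemma quot_bound (w : E → ℝ) (r ρ t : ℝ) (k : Fin 3) (hk : k ≠ 2) (hw : ContDiffOn ℝ ∞ w (HB r))
    (ht : 0 < t) (hρ : ρ + t ≤ r) :
    ∫⁻ y in HB ρ, ENNReal.ofReal (((w (y + t • ev k) - w y) / t) ^ 2)
      ≤ ∫⁻ y in HB r, ENNReal.ofReal ((pd k w y) ^ 2) := by
  have hpd : ContinuousOn (pd k w) (HB r) := (contDiffOn_pd (isOpen_HB r) hw k).continuousOn
  -- pointwise
  have hpt : ∀ y ∈ HB ρ, ENNReal.ofReal (((w (y + t • ev k) - w y) / t) ^ 2)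
      ≤ ENNReal.ofReal (1 / t) * ∫⁻ s in Ioc 0 t, ENNReal.ofReal ((pd k w (y + s • ev k)) ^ 2) := by
    intro y hy
    have hmem : ∀ s ∈ Icc 0 t, y + s • ev k ∈ HB r := fun s hs => add_mem_HB hk hρ hs.1 hs.2 hy
    have hc : ContinuousOn (fun s : ℝ => pd k w (y + s • ev k)) (Icc 0 t) := by
      refine hpd.comp (by fun_prop) hmem
    have hu : uIcc 0 t = Icc 0 t := uIcc_of_le ht.le
    have hd : ∀ s ∈ uIcc 0 t, HasDerivAt (fun s : ℝ => w (y + s • ev k)) (pd k w (y + s • ev k)) s := by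
      intro s hs
      rw [hu] at hs
      have h1 : HasFDerivAt w (fderiv ℝ w (y + s • ev k)) (y + s • ev k) :=
        (((hw.contDiffAt ((isOpen_HB r).mem_nhds (hmem s hs))).differentiableAt (by norm_num))).hasFDerivAt
      have h2 : HasDerivAt (fun s : ℝ => y + s • ev k) (ev k) s := by
        have := ((hasDerivAt_id s).smul_const (ev k)).const_add y
        simpa using this
      exact h1.comp_hasDerivAt s h2
    have hftc : ∫ s in (0:ℝ)..t, pd k w (y + s • ev k) = w (y + t • ev k) - w y := by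
      rw [intervalIntegral.integral_eq_sub_of_hasDerivAt hd ((hu ▸ hc).intervalIntegrable)]
      simp
    have hcs := cs_interval ht hc
    rw [hftc] at hcs
    have h3 : ((w (y + t • ev k) - w y) / t) ^ 2
        ≤ (1 / t) * ∫ s in (0:ℝ)..t, (pd k w (y + s • ev k)) ^ 2 := by
      rw [div_pow, div_le_iff₀ (by positivity)]
      calc _ ≤ _ := hcs
        _ = _ := by field_simp
    refine (ENNReal.ofReal_le_ofReal h3).trans ?_
    rw [ENNReal.ofReal_mul (by positivity)]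
    refine mul_le_mul' le_rfl ?_
    rw [intervalIntegral.integral_of_le ht.le, ofReal_integral_eq_lintegral_ofReal]
    · have := (hc.pow 2).integrableOn_Icc (μ := volume)
      exact this.mono_set Ioc_subset_Icc_self
    · exact ae_of_all _ fun s => sq_nonneg _
  have hmeas : AEMeasurable (Function.uncurry fun (y : E) (s : ℝ) => ENNReal.ofReal ((pd k w (y + s • ev k)) ^ 2))
      ((volume.restrict (HB ρ)).prod (volume.restrict (Ioc 0 t))) := by
    rw [Measure.prod_restrict]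
    have h1 : ContinuousOn (fun q : E × ℝ => (pd k w (q.1 + q.2 • ev k)) ^ 2) (HB ρ ×ˢ Ioc 0 t) := by
      refine ContinuousOn.pow (hpd.comp (by fun_prop) ?_) 2
      rintro ⟨y, s⟩ ⟨hy, hs⟩
      exact add_mem_HB hk hρ hs.1.le hs.2 hy
    have h2 : AEMeasurable (fun q : E × ℝ => (pd k w (q.1 + q.2 • ev k)) ^ 2)
        ((volume.prod volume).restrict (HB ρ ×ˢ Ioc 0 t)) :=
      h1.aemeasurable ((isOpen_HB ρ).measurableSet.prod measurableSet_Ioc)
    exact h2.ennreal_ofReal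
  calc ∫⁻ y in HB ρ, ENNReal.ofReal (((w (y + t • ev k) - w y) / t) ^ 2)
      ≤ ∫⁻ y in HB ρ, ENNReal.ofReal (1 / t) * ∫⁻ s in Ioc 0 t, ENNReal.ofReal ((pd k w (y + s • ev k)) ^ 2) :=
        setLIntegral_mono' (isOpen_HB ρ).measurableSet hpt
    _ = ENNReal.ofReal (1 / t) * ∫⁻ y in HB ρ, ∫⁻ s in Ioc 0 t, ENNReal.ofReal ((pd k w (y + s • ev k)) ^ 2) :=
        lintegral_const_mul' _ _ ENNReal.ofReal_ne_top
    _ = ENNReal.ofReal (1 / t) * ∫⁻ s in Ioc 0 t, ∫⁻ y in HB ρ, ENNReal.ofReal ((pd k w (y + s • ev k)) ^ 2) := by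
        rw [lintegral_lintegral_swap hmeas]
    _ ≤ ENNReal.ofReal (1 / t) * ∫⁻ s in Ioc 0 t, ∫⁻ y in HB r, ENNReal.ofReal ((pd k w y) ^ 2) := by
        refine mul_le_mul' le_rfl (setLIntegral_mono' measurableSet_Ioc fun s hs => ?_)
        have h1 := (measurePreserving_add_right (volume : Measure E) (s • ev k)).setLIntegral_comp_preimage_emb
          (measurableEmbedding_addRight _) (fun y => ENNReal.ofReal ((pd k w y) ^ 2)) (HB r)
        rw [← h1]
        exact lintegral_mono_set fun y hy => add_mem_HB hk hρ hs.1.le hs.2 hy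
    _ = ∫⁻ y in HB r, ENNReal.ofReal ((pd k w y) ^ 2) := by
        rw [setLIntegral_const, Real.volume_Ioc, sub_zero, mul_comm, mul_assoc, ← ENNReal.ofReal_mul ht.le,
          mul_one_div_cancel ht.ne', ENNReal.ofReal_one, mul_one]


lemma exists_cutoff (r : ℝ) (hr : 0 < r) : ∃ (η : E → ℝ) (c1 : ℝ), 0 ≤ c1 ∧ ContDiff ℝ ∞ η ∧
    (∀ y, 0 ≤ η y ∧ η y ≤ 1) ∧ (∀ y, ‖y‖ ≤ 3 * r / 4 → η y = 1) ∧ (∀ y, 13 * r / 16 ≤ ‖y‖ → η y = 0) ∧
    ∀ y j, |pd j η y| ≤ c1 := by
  let f : ContDiffBump (0 : E) := ⟨3 * r / 4, 13 * r / 16, by positivity, by linarith⟩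
  have hsm : ContDiff ℝ ∞ f := f.contDiff
  have hcs : HasCompactSupport (f : E → ℝ) := f.hasCompactSupport
  obtain ⟨C, hC⟩ := (hsm.continuous_fderiv (by norm_num)).bounded_above_of_compact_support
    (hcs.fderiv (𝕜 := ℝ))
  refine ⟨f, |C|, abs_nonneg _, hsm, fun y => ⟨f.nonneg, f.le_one⟩, fun y hy => ?_, fun y hy => ?_, fun y j => ?_⟩
  · exact f.one_of_mem_closedBall (by simpa [f] using hy)
  · exact f.zero_of_le_dist (by simpa [f] using hy)
  · have h1 : ‖fderiv ℝ f y (ev j)‖ ≤ ‖fderiv ℝ f y‖ * ‖ev j‖ := ContinuousLinearMap.le_opNorm _ _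
    rw [norm_ev, mul_one] at h1
    exact (h1.trans (hC y)).trans (le_abs_self C)

lemma coeff_bounds {A : E → Matrix (Fin 3) (Fin 3) ℝ} {r : ℝ} {w : E → ℝ} (H : HalfSol A r w) :
    ∃ a b : ℝ, 0 ≤ a ∧ 0 ≤ b ∧ (∀ y, ‖y‖ ≤ r → ∀ i j, |A y i j| ≤ a) ∧
    (∀ y z, ‖y‖ ≤ r → ‖z‖ ≤ r → ∀ i j, |A z i j - A y i j| ≤ b * ‖z - y‖) := by
  have hr := H.rpos
  have hsub : closedBall (0 : E) r ⊆ ball 0 (2 * r) := closedBall_subset_ball (by linarith)
  have hcomp : IsCompact (closedBall (0 : E) r) := isCompact_closedBall _ _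
  have h1 : ∀ i j, ∃ C, ∀ y ∈ closedBall (0 : E) r, ‖A y i j‖ ≤ C := fun i j =>
    hcomp.exists_bound_of_continuousOn ((H.sm i j).continuousOn.mono hsub)
  have h2 : ∀ i j, ∃ C, ∀ y ∈ closedBall (0 : E) r, ‖fderiv ℝ (fun y => A y i j) y‖ ≤ C := fun i j =>
    hcomp.exists_bound_of_continuousOn (((H.sm i j).continuousOn_fderiv_of_isOpen isOpen_ball (by norm_num)).mono hsub)
  choose a ha using h1
  choose b hb using h2
  have hle : ∀ (c : Fin 3 → Fin 3 → ℝ) (i j : Fin 3), c i j ≤ ∑ i, ∑ j, |c i j| := fun c i j => by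
    calc c i j ≤ |c i j| := le_abs_self _
      _ ≤ ∑ j, |c i j| := Finset.single_le_sum (f := fun j => |c i j|) (fun j _ => abs_nonneg _) (Finset.mem_univ j)
      _ ≤ _ := Finset.single_le_sum (f := fun i => ∑ j, |c i j|)
          (fun i _ => Finset.sum_nonneg fun j _ => abs_nonneg _) (Finset.mem_univ i)
  refine ⟨∑ i, ∑ j, |a i j|, ∑ i, ∑ j, |b i j|, by positivity, by positivity, fun y hy i j => ?_,
    fun y z hy hz i j => ?_⟩
  · exact (ha i j y (by simpa using hy)).trans (hle a i j)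
  · have hcx : Convex ℝ (closedBall (0 : E) r) := convex_closedBall _ _
    have h3 := hcx.norm_image_sub_le_of_norm_fderiv_le (𝕜 := ℝ) (f := fun y => A y i j) (C := b i j)
      (x := y) (y := z) (fun x hx => ((H.sm i j).contDiffAt (isOpen_ball.mem_nhds (hsub hx))).differentiableAt (by norm_num))
      (hb i j) (by simpa using hy) (by simpa using hz)
    exact h3.trans (mul_le_mul_of_nonneg_right (hle b i j) (norm_nonneg _))


structure Cut (r c1 : ℝ) (η : E → ℝ) : Prop where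
  c1pos : 0 ≤ c1
  sm : ContDiff ℝ ∞ η
  bd : ∀ y, 0 ≤ η y ∧ η y ≤ 1
  one : ∀ y, ‖y‖ ≤ 3 * r / 4 → η y = 1
  zero : ∀ y, 13 * r / 16 ≤ ‖y‖ → η y = 0
  der : ∀ y j, |pd j η y| ≤ c1

/-- difference quotient -/
noncomputable def dq (w : E → ℝ) (v : E) (t : ℝ) (y : E) : ℝ := (w (y + v) - w y) / t

lemma pd_dq {w : E → ℝ} {v y : E} {t : ℝ} (h1 : DifferentiableAt ℝ w y)
    (h2 : DifferentiableAt ℝ w (y + v)) (j : Fin 3) : pd j (dq w v t) y = dq (pd j w) v t y := by
  have h3 : DifferentiableAt ℝ (fun y => w (y + v)) y :=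
    DifferentiableAt.comp y h2 (by fun_prop)
  have h4 : HasFDerivAt (dq w v t) (t⁻¹ • (fderiv ℝ (fun y => w (y + v)) y - fderiv ℝ w y)) y := by
    have := (h3.hasFDerivAt.sub h1.hasFDerivAt).const_mul t⁻¹
    refine this.congr_of_eventuallyEq (Eventually.of_forall fun z => ?_)
    simp only [dq]; rw [div_eq_inv_mul]; rfl
  simp only [pd, dq]
  rw [h4.fderiv, fderiv_comp_add_right]
  simp [div_eq_inv_mul]

lemma coord_add (y : E) (t : ℝ) {k : Fin 3} (hk : k ≠ 2) : (y + t • ev k) 2 = y 2 := by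
  simp [hk.symm]

lemma coord_sub (y : E) (t : ℝ) {k : Fin 3} (hk : k ≠ 2) : (y - t • ev k) 2 = y 2 := by
  simp [hk.symm]

lemma norm_tev {t : ℝ} (ht : 0 ≤ t) (k : Fin 3) : ‖t • ev k‖ = t := by
  rw [norm_smul, norm_ev, Real.norm_of_nonneg ht, mul_one]

lemma weak_shift {A : E → Matrix (Fin 3) (Fin 3) ℝ} {r : ℝ} {w : E → ℝ} (H : HalfSol A r w)
    {ψ : E → ℝ} {k : Fin 3} (hk : k ≠ 2) {t : ℝ} (ht : 0 ≤ t) (htr : t ≤ r / 32)
    (hψ : ∀ y ∈ Up, ContDiffAt ℝ ∞ ψ y) (hz : ∀ y, 13 * r / 16 ≤ ‖y‖ → ψ y = 0)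
    (h2 : MemLp ψ 2 (volume.restrict (HB (7 * r / 8))))
    (h3 : ∀ j, MemLp (pd j ψ) 2 (volume.restrict (HB (7 * r / 8)))) :
    ∫ y in HB (7 * r / 8), ∑ i, ∑ j, A (y + t • ev k) i j * pd i w (y + t • ev k) * pd j ψ y = 0 := by
  have hr := H.rpos
  set v : E := t • ev k with hv
  have hnv : ‖v‖ = t := norm_tev ht k
  have hpz : ∀ y, 7 * r / 8 ≤ ‖y‖ → ∀ j, pd j ψ y = 0 := by
    intro y hy j
    apply pd_of_eventually_zero
    have h1 : ∀ᶠ z in 𝓝 y, 13 * r / 16 < ‖z‖ :=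
      continuous_norm.continuousAt.eventually_const_lt (by linarith)
    filter_upwards [h1] with z hz'
    exact hz z hz'.le
  have hS := (isOpen_HB (7 * r / 8)).measurableSet
  have hU := isOpen_Up.measurableSet
  have hout : ∀ y ∈ Up, y ∉ HB (7 * r / 8) → 7 * r / 8 ≤ ‖y‖ := by
    intro y hy hn
    by_contra hc
    push Not at hc
    exact hn ⟨hc, hy⟩
  have h2U : MemLp ψ 2 (volume.restrict Up) :=
    memLp_of_zero_off hS hU h2 fun y hy hn => hz y (by have := hout y hy hn; linarith)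
  have h3U : ∀ j, MemLp (pd j ψ) 2 (volume.restrict Up) := fun j =>
    memLp_of_zero_off hS hU (h3 j) fun y hy hn => hpz y (hout y hy hn) j
  have hshift : ∀ y ∈ HB r, y + -v ∈ Up := by
    intro y hy
    have h := coord_sub y t hk
    have : (y + -v) 2 = y 2 := by rw [← sub_eq_add_neg]; exact h
    show 0 < (y + -v) 2
    rw [this]; exact hy.2
  have hpdφ : ∀ j y, pd j (fun y => ψ (y + -v)) y = pd j ψ (y + -v) := fun j y => pd_comp_add _ _ _ _
  have hw := H.weak (fun y => ψ (y + -v)) (13 * r / 16 + t) (by linarith) ?_ ?_ ?_ ?_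
  · simp only [hpdφ] at hw
    rw [← integral_indicator (isOpen_HB r).measurableSet] at hw
    rw [← integral_indicator hS, ← integral_sub_right_eq_self _ v, ← hw]
    congr 1
    ext y
    by_cases hy : y - v ∈ HB (7 * r / 8)
    · have hyr : y ∈ HB r := by
        have h1 := add_mem_HB (r := r) (ρ := 7 * r / 8) (s := t) (t := t) hk (by linarith) ht le_rfl hy
        rw [← hv, sub_add_cancel] at h1
        exact h1
      rw [indicator_of_mem hy, indicator_of_mem hyr]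
      simp only [sub_add_cancel, ← sub_eq_add_neg]
    · rw [indicator_of_notMem hy]
      by_cases hyr : y ∈ HB r
      · rw [indicator_of_mem hyr]
        have h1 : 7 * r / 8 ≤ ‖y + -v‖ := hout _ (hshift y hyr) (by rw [← sub_eq_add_neg]; exact hy)
        simp [hpz _ h1]
      · rw [indicator_of_notMem hyr]
  · intro y hy
    have h1 : ContDiffAt ℝ ∞ (fun y : E => y + -v) y := by fun_prop
    exact (ContDiffAt.comp y (hψ _ (hshift y hy)) h1).contDiffWithinAt
  · exact memLp_translate (-v) hU h2U hshift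
  · rw [memLp_gr_iff]
    intro j
    have h1 := memLp_translate (-v) hU (h3U j) hshift
    have h4 : pd j (fun y => ψ (y + -v)) = fun y => pd j ψ (y + -v) := by
      ext y; exact hpdφ j y
    rw [h4]; exact h1
  · intro y hy hy2
    apply hz
    have : ‖y‖ ≤ ‖y + -v‖ + ‖v‖ := by
      calc ‖y‖ = ‖(y + -v) + v‖ := by simp
        _ ≤ _ := norm_add_le _ _
    linarith


lemma alg_term {lam a b c1 : ℝ} (hlam : 0 < lam) (ha : 0 ≤ a) (hb : 0 ≤ b) (hc : 0 ≤ c1)
    {α β ν η g p q q' : ℝ} (h0 : 0 ≤ η) (h1 : η ≤ 1) (hα : |α| ≤ a) (hβ : |β| ≤ b) (hν : |ν| ≤ c1) :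
    η ^ 2 * (α * q * q') - (lam / 12) * (η ^ 2 * q ^ 2) - (12 / lam) * (a * c1) ^ 2 * g ^ 2
      - (lam / 12) * (η ^ 2 * q' ^ 2) - (3 / lam) * b ^ 2 * p ^ 2 - b * c1 * (p ^ 2 + g ^ 2)
      ≤ (α * q + β * p) * (η ^ 2 * q' + 2 * η * g * ν) := by
  have e1 : 0 ≤ (lam / 12) * (η ^ 2 * q ^ 2) + (12 / lam) * (α * ν * g) ^ 2 + 2 * η * g * ν * (α * q) := by
    have : (lam / 12) * (η ^ 2 * q ^ 2) + (12 / lam) * (α * ν * g) ^ 2 + 2 * η * g * ν * (α * q)
        = (lam / 12) * (η * q + (12 / lam) * (α * ν * g)) ^ 2 := by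
      field_simp
      ring
    rw [this]; positivity
  have e2 : (α * ν * g) ^ 2 ≤ (a * c1) ^ 2 * g ^ 2 := by
    rw [mul_pow]
    refine mul_le_mul_of_nonneg_right ?_ (sq_nonneg g)
    rw [← sq_abs (α * ν), abs_mul]
    exact pow_le_pow_left₀ (by positivity) (mul_le_mul hα hν (abs_nonneg _) ha) 2
  have e3 : 0 ≤ (lam / 12) * (η ^ 2 * q' ^ 2) + (3 / lam) * (β * η * p) ^ 2 + β * p * (η ^ 2 * q') := by
    have : (lam / 12) * (η ^ 2 * q' ^ 2) + (3 / lam) * (β * η * p) ^ 2 + β * p * (η ^ 2 * q')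
        = (lam / 12) * (η * q' + (6 / lam) * (β * η * p)) ^ 2 := by
      field_simp
      ring
    rw [this]; positivity
  have e4 : (β * η * p) ^ 2 ≤ b ^ 2 * p ^ 2 := by
    rw [mul_pow]
    refine mul_le_mul_of_nonneg_right ?_ (sq_nonneg p)
    rw [← sq_abs (β * η), abs_mul, abs_of_nonneg h0]
    refine pow_le_pow_left₀ (by positivity) ?_ 2
    calc |β| * η ≤ b * 1 := mul_le_mul hβ h1 h0 hb
      _ = b := mul_one b
  have e5 : -(b * c1 * (p ^ 2 + g ^ 2)) ≤ β * p * (2 * η * g * ν) := by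
    have h3 : |β * p * (2 * η * g * ν)| ≤ b * c1 * (p ^ 2 + g ^ 2) := by
      have : |β * p * (2 * η * g * ν)| = (|β| * η * |ν|) * (2 * |p| * |g|) := by
        rw [abs_mul, abs_mul, abs_mul, abs_mul, abs_mul, abs_of_nonneg h0, abs_two]; ring
      rw [this]
      have h4 : |β| * η * |ν| ≤ b * c1 := by
        have : |β| * η ≤ b := by
          calc |β| * η ≤ b * 1 := mul_le_mul hβ h1 h0 hb
            _ = b := mul_one b
        exact mul_le_mul this hν (abs_nonneg _) hb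
      have h5 : 2 * |p| * |g| ≤ p ^ 2 + g ^ 2 := by
        have := two_mul_le_add_sq |p| |g|
        rwa [sq_abs, sq_abs] at this
      exact mul_le_mul h4 h5 (by positivity) (by positivity)
    exact neg_le_of_neg_le (by linarith [neg_le_abs (β * p * (2 * η * g * ν))]) |>.trans le_rfl
  have e6 : (12 / lam) * (α * ν * g) ^ 2 ≤ (12 / lam) * ((a * c1) ^ 2 * g ^ 2) :=
    mul_le_mul_of_nonneg_left e2 (by positivity)
  have e7 : (3 / lam) * (β * η * p) ^ 2 ≤ (3 / lam) * (b ^ 2 * p ^ 2) :=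
    mul_le_mul_of_nonneg_left e4 (by positivity)
  nlinarith [e1, e3, e5, e6, e7]

lemma alg_ineq {lam a b c1 : ℝ} (hlam : 0 < lam) (ha : 0 ≤ a) (hb : 0 ≤ b) (hc : 0 ≤ c1)
    {Ap dA : Fin 3 → Fin 3 → ℝ} {p q n : Fin 3 → ℝ} {η g : ℝ} (h0 : 0 ≤ η) (h1 : η ≤ 1)
    (hA : ∀ i j, |Ap i j| ≤ a) (hdA : ∀ i j, |dA i j| ≤ b) (hn : ∀ j, |n j| ≤ c1)
    (hell : lam * ∑ i, q i ^ 2 ≤ ∑ i, ∑ j, Ap i j * q i * q j) :
    (lam / 2) * (η ^ 2 * ∑ i, q i ^ 2) - (108 / lam * (a * c1) ^ 2 + 9 * b * c1) * g ^ 2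
      - (9 / lam * b ^ 2 + 3 * b * c1) * ∑ i, p i ^ 2
      ≤ ∑ i, ∑ j, (Ap i j * q i + dA i j * p i) * (η ^ 2 * q j + 2 * η * g * n j) := by
  have h2 : ∑ i, ∑ j, (η ^ 2 * (Ap i j * q i * q j) - (lam / 12) * (η ^ 2 * q i ^ 2) - (12 / lam) * (a * c1) ^ 2 * g ^ 2
      - (lam / 12) * (η ^ 2 * q j ^ 2) - (3 / lam) * b ^ 2 * p i ^ 2 - b * c1 * (p i ^ 2 + g ^ 2))
      ≤ ∑ i, ∑ j, (Ap i j * q i + dA i j * p i) * (η ^ 2 * q j + 2 * η * g * n j) :=
    Finset.sum_le_sum fun i _ => Finset.sum_le_sum fun j _ =>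
      alg_term hlam ha hb hc h0 h1 (hA i j) (hdA i j) (hn j)
  refine le_trans ?_ h2
  have h3 : η ^ 2 * (lam * ∑ i, q i ^ 2) ≤ η ^ 2 * ∑ i, ∑ j, Ap i j * q i * q j :=
    mul_le_mul_of_nonneg_left hell (sq_nonneg η)
  simp only [Fin.sum_univ_three] at h3 ⊢
  have e : (108 / lam * (a * c1) ^ 2 + 9 * b * c1) = 9 * ((12 / lam) * (a * c1) ^ 2) + 9 * b * c1 := by ring
  have e' : (9 / lam * b ^ 2 + 3 * b * c1) = 3 * ((3 / lam) * b ^ 2) + 3 * b * c1 := by ring
  rw [e, e']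
  generalize (12 / lam) * (a * c1) ^ 2 = X at *
  generalize (3 / lam) * b ^ 2 = Y at *
  linarith

lemma integrable_term {S : Set E} (hS : MeasurableSet S) {α f g : E → ℝ} (hα : ContinuousOn α S) (C : ℝ)
    (hC : ∀ y ∈ S, |α y| ≤ C) (hf : MemLp f 2 (volume.restrict S)) (hg : MemLp g 2 (volume.restrict S)) :
    Integrable (fun y => α y * f y * g y) (volume.restrict S) := by
  have h1 : Integrable (fun y => f y * g y) (volume.restrict S) := hf.integrable_mul hg
  have h2 : Integrable (fun y => α y * (f y * g y)) (volume.restrict S) := by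
    refine h1.bdd_mul (c := C) (hα.aestronglyMeasurable hS) ?_
    exact ae_restrict_of_forall_mem hS fun y hy => hC y hy
  exact h2.congr (ae_of_all _ fun y => by ring)


lemma memLp_bdd_mul {S : Set E} (hS : MeasurableSet S) {α f : E → ℝ} (hα : ContinuousOn α S) (C : ℝ)
    (hC : ∀ y ∈ S, |α y| ≤ C) (hf : MemLp f 2 (volume.restrict S)) :
    MemLp (fun y => α y * f y) 2 (volume.restrict S) := by
  refine hf.of_le_mul (c := C) ((hα.aestronglyMeasurable hS).mul hf.1) ?_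
  refine ae_restrict_of_forall_mem hS fun y hy => ?_
  rw [norm_mul]
  exact mul_le_mul_of_nonneg_right (hC y hy) (norm_nonneg _)

lemma pd_mul {f g : E → ℝ} {y : E} (hf : DifferentiableAt ℝ f y) (hg : DifferentiableAt ℝ g y) (j : Fin 3) :
    pd j (fun y => f y * g y) y = f y * pd j g y + g y * pd j f y := by
  simp only [pd]
  rw [fderiv_fun_mul hf hg]
  simp

lemma pd_sq {f : E → ℝ} {y : E} (hf : DifferentiableAt ℝ f y) (j : Fin 3) :
    pd j (fun y => f y ^ 2) y = 2 * f y * pd j f y := by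
  have h : (fun y => f y ^ 2) = fun y => f y * f y := by ext z; ring
  rw [h, pd_mul hf hf]; ring

lemma energy {A : E → Matrix (Fin 3) (Fin 3) ℝ} {r : ℝ} {w : E → ℝ} (H : HalfSol A r w)
    {η : E → ℝ} {c1 : ℝ} (hη : Cut r c1 η) {a b lam : ℝ} (hlam : 0 < lam) (ha : 0 ≤ a) (hb : 0 ≤ b)
    (hA : ∀ y, ‖y‖ ≤ r → ∀ i j, |A y i j| ≤ a)
    (hdA : ∀ y z, ‖y‖ ≤ r → ‖z‖ ≤ r → ∀ i j, |A z i j - A y i j| ≤ b * ‖z - y‖)
    (hell : ∀ y ∈ ball (0 : E) (2 * r), ∀ ξ : Fin 3 → ℝ, lam * ∑ i, ξ i ^ 2 ≤ ∑ i, ∑ j, A y i j * ξ i * ξ j)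
    {k : Fin 3} (hk : k ≠ 2) {t : ℝ} (ht : 0 < t) (htr : t ≤ r / 32) :
    (lam / 2) * ∫ y in HB (7 * r / 8), η y ^ 2 * ∑ i, (dq (pd i w) (t • ev k) t y) ^ 2
      ≤ (108 / lam * (a * c1) ^ 2 + 9 * b * c1) * (∫ y in HB (7 * r / 8), (dq w (t • ev k) t y) ^ 2)
        + (9 / lam * b ^ 2 + 3 * b * c1) * ∫ y in HB (7 * r / 8), ∑ i, (pd i w y) ^ 2 := by
  have hr := H.rpos
  set v : E := t • ev k with hv
  have hnv : ‖v‖ = t := norm_tev ht.le k
  have hS : MeasurableSet (HB (7 * r / 8)) := (isOpen_HB _).measurableSet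
  have hSr : HB (7 * r / 8) ⊆ HB r := HB_mono (by linarith)
  have hadd : ∀ y ∈ HB (7 * r / 8), y + v ∈ HB r := fun y hy =>
    add_mem_HB hk (by linarith) ht.le le_rfl hy
  have hsm : ∀ y ∈ HB r, ContDiffAt ℝ ∞ w y := fun y hy => H.smw.contDiffAt ((isOpen_HB r).mem_nhds hy)
  have hp : ∀ i, MemLp (pd i w) 2 (volume.restrict (HB r)) := (memLp_gr_iff w).1 H.g2
  have memdq : ∀ f : E → ℝ, MemLp f 2 (volume.restrict (HB r)) →
      MemLp (dq f v t) 2 (volume.restrict (HB (7 * r / 8))) := by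
    intro f hf
    have h1 := memLp_translate v (isOpen_HB r).measurableSet hf hadd
    have h2 : MemLp f 2 (volume.restrict (HB (7 * r / 8))) :=
      hf.mono_measure (Measure.restrict_mono hSr le_rfl)
    have h3 := (h1.sub h2).const_mul t⁻¹
    refine h3.ae_eq (ae_of_all _ fun y => ?_)
    simp [dq, div_eq_inv_mul]
  have hg := memdq w H.l2
  have hq := fun i => memdq (pd i w) (hp i)
  have hpS : ∀ i, MemLp (pd i w) 2 (volume.restrict (HB (7 * r / 8))) := fun i =>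
    (hp i).mono_measure (Measure.restrict_mono hSr le_rfl)
  set g := dq w v t with hgdef
  set ψ : E → ℝ := fun y => η y ^ 2 * g y with hψdef
  have hηc : Continuous η := hη.sm.continuous
  have hηd : ∀ y, DifferentiableAt ℝ η y := fun y => hη.sm.differentiable (by norm_num) y
  have hη1 : ∀ y, |η y ^ 2| ≤ 1 := fun y => by
    rw [abs_of_nonneg (sq_nonneg _)]
    exact pow_le_one₀ (hη.bd y).1 (hη.bd y).2
  have hgat : ∀ y ∈ Up, ‖y‖ < r - t → ContDiffAt ℝ ∞ g y := by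
    intro y hy hn
    have h1 : y ∈ HB r := ⟨by linarith, hy⟩
    have h2 : y + v ∈ HB r := add_mem_HB hk (ρ := r - t) (t := t) (by linarith) ht.le le_rfl ⟨hn, hy⟩
    have h3 : ContDiffAt ℝ ∞ (fun y => w (y + v)) y :=
      ContDiffAt.comp y (hsm _ h2) (by fun_prop)
    exact (h3.sub (hsm _ h1)).div_const t
  have hψat : ∀ y ∈ Up, ContDiffAt ℝ ∞ ψ y := by
    intro y hy
    by_cases hn : ‖y‖ < r - t
    · exact (hη.sm.contDiffAt.pow 2).mul (hgat y hy hn)
    · push Not at hn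
      have h1 : ψ =ᶠ[𝓝 y] fun _ => 0 := by
        have h2 : ∀ᶠ z in 𝓝 y, 13 * r / 16 < ‖z‖ :=
          continuous_norm.continuousAt.eventually_const_lt (by linarith)
        filter_upwards [h2] with z hz
        simp [hψdef, hη.zero z hz.le]
      exact contDiffAt_const.congr_of_eventuallyEq h1
  have hψz : ∀ y, 13 * r / 16 ≤ ‖y‖ → ψ y = 0 := fun y hy => by simp [hψdef, hη.zero y hy]
  have hψ2 : MemLp ψ 2 (volume.restrict (HB (7 * r / 8))) :=
    memLp_bdd_mul hS (hηc.pow 2).continuousOn 1 (fun y _ => hη1 y) hg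
  have hpdψ : ∀ j, ∀ y ∈ HB (7 * r / 8), pd j ψ y
      = η y ^ 2 * dq (pd j w) v t y + 2 * η y * g y * pd j η y := by
    intro j y hy
    have hdg : DifferentiableAt ℝ g y :=
      (hgat y hy.2 (by have := hy.1; linarith)).differentiableAt (by norm_num)
    rw [hψdef, pd_mul (f := fun y => η y ^ 2) ((hηd y).pow 2) hdg, pd_sq (hηd y), hgdef,
      pd_dq ((hsm y (hSr hy)).differentiableAt (by norm_num)) ((hsm _ (hadd y hy)).differentiableAt (by norm_num))]
    ring
  have hηpd : ∀ j, Continuous (pd j η) := fun j =>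
    (hη.sm.continuous_fderiv (by norm_num)).clm_apply continuous_const
  have hpdψ2 : ∀ j, MemLp (pd j ψ) 2 (volume.restrict (HB (7 * r / 8))) := by
    intro j
    have h1 : MemLp (fun y => η y ^ 2 * dq (pd j w) v t y) 2 (volume.restrict (HB (7 * r / 8))) :=
      memLp_bdd_mul hS (hηc.pow 2).continuousOn 1 (fun y _ => hη1 y) (hq j)
    have h2 : MemLp (fun y => (2 * η y * pd j η y) * g y) 2 (volume.restrict (HB (7 * r / 8))) := by
      refine memLp_bdd_mul hS ((continuous_const.mul hηc).mul (hηpd j)).continuousOn (2 * c1) (fun y _ => ?_) hg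
      rw [abs_mul, abs_mul, abs_two, abs_of_nonneg (hη.bd y).1]
      calc 2 * η y * |pd j η y| ≤ 2 * 1 * c1 :=
            mul_le_mul (mul_le_mul_of_nonneg_left (hη.bd y).2 (by norm_num)) (hη.der y j) (abs_nonneg _) (by norm_num)
        _ = 2 * c1 := by ring
    refine (h1.add h2).ae_eq (ae_restrict_of_forall_mem hS fun y hy => ?_)
    rw [hpdψ j y hy]
    simp only [Pi.add_apply]; ring
  have W1 := weak_shift H hk ht.le htr hψat hψz hψ2 hpdψ2
  have W0 := weak_shift H hk le_rfl (by positivity : (0 : ℝ) ≤ r / 32) hψat hψz hψ2 hpdψ2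
  simp only [zero_smul, add_zero] at W0
  rw [← hv] at W1
  -- integrability
  have hball : ∀ y ∈ HB r, y ∈ ball (0 : E) (2 * r) := fun y hy => by
    rw [mem_ball_zero_iff]; have := hy.1; linarith
  have I0 : ∀ i j, Integrable (fun y => A y i j * pd i w y * pd j ψ y) (volume.restrict (HB (7 * r / 8))) := by
    intro i j
    refine integrable_term hS ((H.sm i j).continuousOn.mono fun y hy => hball y (hSr hy)) a (fun y hy => ?_)
      (hpS i) (hpdψ2 j)
    exact hA y (by have := hy.1; linarith) i j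
  have I1 : ∀ i j, Integrable (fun y => A (y + v) i j * pd i w (y + v) * pd j ψ y)
      (volume.restrict (HB (7 * r / 8))) := by
    intro i j
    refine integrable_term hS (α := fun y => A (y + v) i j) ?_ a (fun y hy => ?_)
      (memLp_translate v (isOpen_HB r).measurableSet (hp i) hadd) (hpdψ2 j)
    · exact (H.sm i j).continuousOn.comp (by fun_prop) fun y hy => hball _ (hadd y hy)
    · exact hA _ ((hadd y hy).1.le) i j
  have I0s : Integrable (fun y => ∑ i, ∑ j, A y i j * pd i w y * pd j ψ y) (volume.restrict (HB (7 * r / 8))) :=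
    integrable_finsetSum _ fun i _ => integrable_finsetSum _ fun j _ => I0 i j
  have I1s : Integrable (fun y => ∑ i, ∑ j, A (y + v) i j * pd i w (y + v) * pd j ψ y)
      (volume.restrict (HB (7 * r / 8))) :=
    integrable_finsetSum _ fun i _ => integrable_finsetSum _ fun j _ => I1 i j
  set R : E → ℝ := fun y => ∑ i, ∑ j, (A (y + v) i j * dq (pd i w) v t y + ((A (y + v) i j - A y i j) / t) * pd i w y)
    * (η y ^ 2 * dq (pd j w) v t y + 2 * η y * g y * pd j η y) with hR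
  have hRe : ∀ y ∈ HB (7 * r / 8), t⁻¹ * ((∑ i, ∑ j, A (y + v) i j * pd i w (y + v) * pd j ψ y)
      - ∑ i, ∑ j, A y i j * pd i w y * pd j ψ y) = R y := by
    intro y hy
    rw [hR, ← Finset.sum_sub_distrib, Finset.mul_sum]
    refine Finset.sum_congr rfl fun i _ => ?_
    rw [← Finset.sum_sub_distrib, Finset.mul_sum]
    refine Finset.sum_congr rfl fun j _ => ?_
    rw [hpdψ j y hy]
    simp only [dq]
    field_simp
    ring
  have hRint : Integrable R (volume.restrict (HB (7 * r / 8))) :=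
    ((I1s.sub I0s).const_mul t⁻¹).congr (ae_restrict_of_forall_mem hS fun y hy => hRe y hy)
  have hR0 : ∫ y in HB (7 * r / 8), R y = 0 := by
    rw [← setIntegral_congr_fun hS hRe, integral_const_mul, integral_sub I1s I0s, W1, W0]
    simp
  have Iq : Integrable (fun y => η y ^ 2 * ∑ i, (dq (pd i w) v t y) ^ 2) (volume.restrict (HB (7 * r / 8))) := by
    have h1 : Integrable (fun y => ∑ i, (dq (pd i w) v t y) ^ 2) (volume.restrict (HB (7 * r / 8))) :=
      integrable_finsetSum _ fun i _ => (hq i).integrable_sq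
    exact h1.bdd_mul (c := 1) ((hηc.pow 2).aestronglyMeasurable) (ae_of_all _ fun y => hη1 y)
  have Ig : Integrable (fun y => (g y) ^ 2) (volume.restrict (HB (7 * r / 8))) := hg.integrable_sq
  have Ip : Integrable (fun y => ∑ i, (pd i w y) ^ 2) (volume.restrict (HB (7 * r / 8))) :=
    integrable_finsetSum _ fun i _ => (hpS i).integrable_sq
  have hmono : ∫ y in HB (7 * r / 8), ((lam / 2) * (η y ^ 2 * ∑ i, (dq (pd i w) v t y) ^ 2)
      - (108 / lam * (a * c1) ^ 2 + 9 * b * c1) * (g y) ^ 2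
      - (9 / lam * b ^ 2 + 3 * b * c1) * ∑ i, (pd i w y) ^ 2) ≤ ∫ y in HB (7 * r / 8), R y := by
    refine setIntegral_mono_on (((Iq.const_mul _).sub (Ig.const_mul _)).sub (Ip.const_mul _)) hRint hS fun y hy => ?_
    have hyn : ‖y‖ ≤ r := (hSr hy).1.le
    have hyv : ‖y + v‖ ≤ r := (hadd y hy).1.le
    refine alg_ineq hlam ha hb hη.c1pos (Ap := fun i j => A (y + v) i j) (dA := fun i j => (A (y + v) i j - A y i j) / t)
      (p := fun i => pd i w y) (q := fun i => dq (pd i w) v t y) (n := fun j => pd j η y)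
      (hη.bd y).1 (hη.bd y).2 (fun i j => hA _ hyv i j) (fun i j => ?_) (fun j => hη.der y j)
      (hell _ (hball _ (hadd y hy)) _)
    rw [abs_div, abs_of_pos ht, div_le_iff₀ ht]
    have := hdA y (y + v) hyn hyv i j
    simpa [hnv] using this
  have e1 := integral_sub ((Iq.const_mul (lam / 2)).sub (Ig.const_mul (108 / lam * (a * c1) ^ 2 + 9 * b * c1)))
    (Ip.const_mul (9 / lam * b ^ 2 + 3 * b * c1))
  have e2 := integral_sub (Iq.const_mul (lam / 2)) (Ig.const_mul (108 / lam * (a * c1) ^ 2 + 9 * b * c1))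
  simp only [Pi.sub_apply] at e1
  rw [hR0, e1, e2, integral_const_mul, integral_const_mul, integral_const_mul] at hmono
  linarith


lemma memLp_dq {f : E → ℝ} {r ρ t : ℝ} {k : Fin 3} (hk : k ≠ 2) (ht : 0 ≤ t) (hρ : ρ + t ≤ r)
    (hf : MemLp f 2 (volume.restrict (HB r))) :
    MemLp (dq f (t • ev k) t) 2 (volume.restrict (HB ρ)) := by
  have h1 := memLp_translate (t • ev k) (isOpen_HB r).measurableSet hf
    (fun y (hy : y ∈ HB ρ) => add_mem_HB hk hρ ht le_rfl hy)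
  have h2 : MemLp f 2 (volume.restrict (HB ρ)) :=
    hf.mono_measure (Measure.restrict_mono (HB_mono (by linarith)) le_rfl)
  have h3 := (h1.sub h2).const_mul t⁻¹
  refine h3.ae_eq (ae_of_all _ fun y => ?_)
  simp [dq, div_eq_inv_mul]

theorem rg1 : T_RG1 := by
  intro A r w H k l hk
  have hr := H.rpos
  obtain ⟨η, c1, h1, h2, h3, h4, h5, h6⟩ := exists_cutoff r hr
  have hη : Cut r c1 η := ⟨h1, h2, h3, h4, h5, h6⟩
  obtain ⟨a, b, ha, hb, hA, hdA⟩ := coeff_bounds H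
  obtain ⟨lam, hlam, hell⟩ := H.ell
  have hp : ∀ i, MemLp (pd i w) 2 (volume.restrict (HB r)) := (memLp_gr_iff w).1 H.g2
  set Kp : ℝ := ∫ y in HB r, (pd k w y) ^ 2 with hKp
  set P : ℝ := ∫ y in HB (7 * r / 8), ∑ i, (pd i w y) ^ 2 with hP
  have hKe : ∫⁻ y in HB r, ENNReal.ofReal ((pd k w y) ^ 2) = ENNReal.ofReal Kp := by
    rw [hKp, ofReal_integral_eq_lintegral_ofReal (hp k).integrable_sq (ae_of_all _ fun y => sq_nonneg _)]
  have hKp0 : 0 ≤ Kp := integral_nonneg fun y => sq_nonneg _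
  set M : ℝ := (108 / lam * (a * c1) ^ 2 + 9 * b * c1) * Kp + (9 / lam * b ^ 2 + 3 * b * c1) * P with hM
  have hbound : ∀ t : ℝ, 0 < t → t ≤ r / 32 →
      ∫ y in HB (3 * r / 4), (dq (pd l w) (t • ev k) t y) ^ 2 ≤ 2 / lam * M := by
    intro t ht htr
    have hg : MemLp (dq w (t • ev k) t) 2 (volume.restrict (HB (7 * r / 8))) :=
      memLp_dq hk ht.le (by linarith) H.l2
    have e1 : ∫ y in HB (7 * r / 8), (dq w (t • ev k) t y) ^ 2 ≤ Kp := by
      have h := quot_bound w r (7 * r / 8) t k hk H.smw ht (by linarith)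
      rw [hKe] at h
      have h' : ENNReal.ofReal (∫ y in HB (7 * r / 8), (dq w (t • ev k) t y) ^ 2) ≤ ENNReal.ofReal Kp := by
        rw [ofReal_integral_eq_lintegral_ofReal hg.integrable_sq (ae_of_all _ fun y => sq_nonneg _)]
        exact h
      exact (ENNReal.ofReal_le_ofReal_iff hKp0).1 h'
    have e2 := energy H hη hlam ha hb hA hdA hell hk ht htr
    have e3 : (lam / 2) * ∫ y in HB (7 * r / 8), η y ^ 2 * ∑ i, (dq (pd i w) (t • ev k) t y) ^ 2 ≤ M := by
      refine e2.trans (add_le_add (mul_le_mul_of_nonneg_left e1 ?_) le_rfl)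
      have := hη.c1pos
      positivity
    have hq : ∀ i, MemLp (dq (pd i w) (t • ev k) t) 2 (volume.restrict (HB (7 * r / 8))) := fun i =>
      memLp_dq hk ht.le (by linarith) (hp i)
    have Iq : IntegrableOn (fun y => η y ^ 2 * ∑ i, (dq (pd i w) (t • ev k) t y) ^ 2) (HB (7 * r / 8)) := by
      have h1 : Integrable (fun y => ∑ i, (dq (pd i w) (t • ev k) t y) ^ 2) (volume.restrict (HB (7 * r / 8))) :=
        integrable_finsetSum _ fun i _ => (hq i).integrable_sq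
      refine h1.bdd_mul (c := 1) ((hη.sm.continuous.pow 2).aestronglyMeasurable) (ae_of_all _ fun y => ?_)
      rw [Real.norm_of_nonneg (sq_nonneg _)]
      exact pow_le_one₀ (hη.bd y).1 (hη.bd y).2
    have hsub : HB (3 * r / 4) ⊆ HB (7 * r / 8) := HB_mono (by linarith)
    have e4 : ∫ y in HB (3 * r / 4), (dq (pd l w) (t • ev k) t y) ^ 2
        ≤ ∫ y in HB (7 * r / 8), η y ^ 2 * ∑ i, (dq (pd i w) (t • ev k) t y) ^ 2 := by
      calc ∫ y in HB (3 * r / 4), (dq (pd l w) (t • ev k) t y) ^ 2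
          ≤ ∫ y in HB (3 * r / 4), η y ^ 2 * ∑ i, (dq (pd i w) (t • ev k) t y) ^ 2 := by
            refine setIntegral_mono_on ?_ (Iq.mono_set hsub) (isOpen_HB _).measurableSet fun y hy => ?_
            · exact ((hq l).integrable_sq).mono_measure (Measure.restrict_mono hsub le_rfl)
            · rw [hη.one y hy.1.le, one_pow, one_mul]
              exact Finset.single_le_sum (f := fun i => (dq (pd i w) (t • ev k) t y) ^ 2)
                (fun i _ => sq_nonneg _) (Finset.mem_univ l)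
        _ ≤ _ := setIntegral_mono_set Iq (ae_of_all _ fun y => by
              show 0 ≤ η y ^ 2 * ∑ i, (dq (pd i w) (t • ev k) t y) ^ 2
              positivity) (LE.le.eventuallyLE hsub)
    have e5 : (2 / lam) * ((lam / 2) * ∫ y in HB (7 * r / 8), η y ^ 2 * ∑ i, (dq (pd i w) (t • ev k) t y) ^ 2)
        ≤ (2 / lam) * M := mul_le_mul_of_nonneg_left e3 (by positivity)
    have e6 : (2 / lam) * ((lam / 2) * ∫ y in HB (7 * r / 8), η y ^ 2 * ∑ i, (dq (pd i w) (t • ev k) t y) ^ 2)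
        = ∫ y in HB (7 * r / 8), η y ^ 2 * ∑ i, (dq (pd i w) (t • ev k) t y) ^ 2 := by
      field_simp
    linarith
  have hwl : ContDiffOn ℝ ∞ (pd l w) (HB r) := contDiffOn_pd (isOpen_HB r) H.smw l
  have hwkl : ContDiffOn ℝ ∞ (pd k (pd l w)) (HB r) := contDiffOn_pd (isOpen_HB r) hwl k
  have hsub : HB (3 * r / 4) ⊆ HB r := HB_mono (by linarith)
  refine ⟨(hwkl.continuousOn.mono hsub).aestronglyMeasurable (isOpen_HB _).measurableSet, ?_⟩
  set μ := (volume : Measure E).restrict (HB (3 * r / 4)) with hμ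
  let tn : ℕ → ℝ := fun n => r / 32 / ((n : ℝ) + 1)
  have htn : ∀ n, 0 < tn n := fun n => by positivity
  have htn2 : ∀ n, tn n ≤ r / 32 := fun n => by
    refine div_le_self (by positivity) ?_
    have : (0 : ℝ) ≤ n := Nat.cast_nonneg n
    linarith
  have htn3 : Tendsto tn atTop (𝓝[≠] 0) := by
    refine tendsto_nhdsWithin_iff.2 ⟨?_, Eventually.of_forall fun n => (htn n).ne'⟩
    have := (tendsto_one_div_add_atTop_nhds_zero_nat (𝕜 := ℝ)).const_mul (r / 32)
    rw [mul_zero] at this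
    refine this.congr fun n => ?_
    simp only [tn]; ring
  have hmem : ∀ n, MemLp (dq (pd l w) (tn n • ev k) (tn n)) 2 μ := fun n =>
    memLp_dq hk (htn n).le (by have := htn2 n; linarith) (hp l)
  have hlim : ∀ᵐ x ∂μ, Tendsto (fun n => dq (pd l w) (tn n • ev k) (tn n) x) atTop (𝓝 (pd k (pd l w) x)) := by
    refine ae_restrict_of_forall_mem (isOpen_HB _).measurableSet fun y hy => ?_
    have hd : DifferentiableAt ℝ (pd l w) y :=
      (hwl.contDiffAt ((isOpen_HB r).mem_nhds (hsub hy))).differentiableAt (by norm_num)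
    have h1 := (hd.hasFDerivAt.hasLineDerivAt (ev k)).tendsto_slope_zero
    refine (h1.comp htn3).congr fun n => ?_
    simp [dq, div_eq_inv_mul, Function.comp]
  have hfat := Lp.eLpNorm_lim_le_liminf_eLpNorm (p := 2) (fun n => (hmem n).1) (pd k (pd l w)) hlim
  have hle : ∀ n, eLpNorm (dq (pd l w) (tn n • ev k) (tn n)) 2 μ ≤ ENNReal.ofReal ((2 / lam * M) ^ ((2 : ℝ)⁻¹)) := by
    intro n
    rw [(hmem n).eLpNorm_eq_integral_rpow_norm (by norm_num) (by norm_num)]
    refine ENNReal.ofReal_le_ofReal ?_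
    have e : ∫ x, ‖dq (pd l w) (tn n • ev k) (tn n) x‖ ^ (2 : ℝ≥0∞).toReal ∂μ
        = ∫ x, (dq (pd l w) (tn n • ev k) (tn n) x) ^ 2 ∂μ := by
      refine integral_congr_ae (ae_of_all _ fun x => ?_)
      simp
    rw [e]
    simp only [ENNReal.toReal_ofNat]
    refine Real.rpow_le_rpow (integral_nonneg fun _ => sq_nonneg _) (hbound _ (htn n) (htn2 n)) (by norm_num)
  refine lt_of_le_of_lt (hfat.trans ?_) (ENNReal.ofReal_lt_top (r := (2 / lam * M) ^ ((2 : ℝ)⁻¹)))
  refine liminf_le_of_le (by isBoundedDefault) fun b' hb' => ?_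
  obtain ⟨n, hn⟩ := hb'.exists
  exact hn.trans (hle n)

end Pool.Agent.H30.IC
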