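import Mathlib
import Pool.Agent.H30.IC.RG1

open MeasureTheory Set Filter Topology Metric
open scoped ENNReal NNReal ContDiff RealInnerProductSpace Convolution

namespace Pool.Agent.H30.IC

open Pool.Agent.H94.IC

lemma exists_bump {K G : Set E} (hK : IsCompact K) (hG : IsOpen G) (hKG : K ⊆ G) :
    ∃ χ : E → ℝ, ContDiff ℝ ∞ χ ∧ HasCompactSupport χ ∧ tsupport χ ⊆ G ∧ (∀ y, 0 ≤ χ y ∧ χ y ≤ 1) ∧
      ∀ y ∈ K, χ y = 1 := by
  obtain ⟨V, hV, hKV, hVG, hVc⟩ := exists_open_between_and_isCompact_closure hK hG hKG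
  obtain ⟨f, hf1, hf2, hf3, hf4⟩ := exists_contMDiff_support_eq_eq_one_iff (modelWithCornersSelf ℝ E) hV
    hK.isClosed hKV
  have hts : tsupport f = closure V := by rw [tsupport, hf3]
  refine ⟨f, contMDiff_iff_contDiff.1 hf1, ?_, ?_, fun y => ?_, fun y hy => (hf4 y).1 hy⟩
  · rw [HasCompactSupport, hts]; exact hVc
  · rw [hts]; exact hVG
  · exact hf2 (mem_range_self y)

lemma exists_primitive {ζ : E → ℝ} (hζ : ContDiff ℝ ∞ ζ) (hc : HasCompactSupport ζ) :
    ContDiff ℝ ∞ (fun y => -∫ s in Ioi (0:ℝ), ζ (y + s • ev 2)) ∧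
      ∀ y, pd 2 (fun y => -∫ s in Ioi (0:ℝ), ζ (y + s • ev 2)) y = ζ y := by
  obtain ⟨R, hR⟩ := hc.isCompact.isBounded.subset_closedBall 0
  have hz : ∀ y, R < ‖y‖ → ζ y = 0 := by
    intro y hy
    by_contra h
    have h1 : y ∈ closedBall (0 : E) R := hR (subset_tsupport _ h)
    rw [mem_closedBall_zero_iff] at h1
    linarith
  have hcomp : ∀ y : E, HasCompactSupport fun s : ℝ => ζ (y + s • ev 2) := by
    intro y
    refine HasCompactSupport.of_support_subset_isCompact (K := Icc (-(R + ‖y‖)) (R + ‖y‖)) isCompact_Icc fun s hs => ?_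
    by_contra hn
    apply hs
    apply hz
    have h1 : R + ‖y‖ < |s| := by
      by_contra hc'
      push Not at hc'
      exact hn (abs_le.1 hc')
    have h2 : ‖s • ev 2‖ ≤ ‖y + s • ev 2‖ + ‖y‖ := by
      calc ‖s • ev 2‖ = ‖(y + s • ev 2) - y‖ := by simp
        _ ≤ _ := norm_sub_le _ _
    rw [norm_smul, norm_ev, mul_one, Real.norm_eq_abs] at h2
    linarith
  have hcont : ∀ y : E, Continuous fun s : ℝ => ζ (y + s • ev 2) := fun y =>
    hζ.continuous.comp (by fun_prop)
  have hint : ∀ y : E, Integrable fun s : ℝ => ζ (y + s • ev 2) := fun y =>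
    (hcont y).integrable_of_hasCompactSupport (hcomp y)
  have hsm : ContDiff ℝ ∞ (fun y => -∫ s in Ioi (0:ℝ), ζ (y + s • ev 2)) := by
    refine ContDiff.neg ?_
    rw [contDiff_iff_contDiffAt]
    intro y0
    set S : Set E := ball 0 (‖y0‖ + 1) with hS
    have h1 := contDiffOn_convolution_right_with_param_comp (n := ⊤) (μ := (volume : Measure ℝ))
      (ContinuousLinearMap.mul ℝ ℝ) (s := S) (v := fun _ : E => (0 : ℝ)) contDiffOn_const
      (f := (Iic (0 : ℝ)).indicator fun _ => (1 : ℝ)) (g := fun (p : E) (x : ℝ) => ζ (p + x • ev 2))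
      (k := Icc (-(R + ‖y0‖ + 1)) (R + ‖y0‖ + 1)) isOpen_ball isCompact_Icc ?_ ?_ ?_
    · have h2 : ∀ y : E, (((Iic (0 : ℝ)).indicator fun _ => (1 : ℝ)) ⋆[ContinuousLinearMap.mul ℝ ℝ, volume]
          fun x : ℝ => ζ (y + x • ev 2)) 0 = ∫ s in Ioi (0:ℝ), ζ (y + s • ev 2) := by
        intro y
        rw [convolution]
        have h3 : (fun t : ℝ => (ContinuousLinearMap.mul ℝ ℝ) ((Iic (0 : ℝ)).indicator (fun _ => (1 : ℝ)) t)
            (ζ (y + (0 - t) • ev 2))) = (Iic (0 : ℝ)).indicator fun t => ζ (y + (-t) • ev 2) := by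
          ext t
          by_cases ht : t ∈ Iic (0 : ℝ)
          · simp [indicator_of_mem ht]
          · simp [indicator_of_notMem ht]
        rw [h3, integral_indicator measurableSet_Iic]
        have h4 := integral_comp_neg_Ioi (0 : ℝ) (fun t => ζ (y + (-t) • ev 2))
        rw [neg_zero] at h4
        rw [← h4]
        simp
      have h5 : ContDiffOn ℝ ∞ (fun y : E => ∫ s in Ioi (0:ℝ), ζ (y + s • ev 2)) S :=
        h1.congr fun y _ => (h2 y).symm
      exact h5.contDiffAt (isOpen_ball.mem_nhds (by rw [mem_ball_zero_iff]; linarith))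
    · intro p x hp hx
      apply hz
      have hp' : ‖p‖ < ‖y0‖ + 1 := by simpa [hS] using hp
      have h2 : R + ‖y0‖ + 1 < |x| := by
        by_contra hc'
        push Not at hc'
        exact hx (abs_le.1 hc')
      have h3 : ‖x • ev 2‖ ≤ ‖p + x • ev 2‖ + ‖p‖ := by
        calc ‖x • ev 2‖ = ‖(p + x • ev 2) - p‖ := by simp
          _ ≤ _ := norm_sub_le _ _
      rw [norm_smul, norm_ev, mul_one, Real.norm_eq_abs] at h3
      linarith
    · exact (locallyIntegrable_const (1 : ℝ)).indicator measurableSet_Iic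
    · have : ContDiff ℝ ∞ (fun q : E × ℝ => ζ (q.1 + q.2 • ev 2)) := hζ.comp (by fun_prop)
      exact this.contDiffOn
  refine ⟨hsm, fun y => ?_⟩
  have h1 : HasLineDerivAt ℝ (fun y => -∫ s in Ioi (0:ℝ), ζ (y + s • ev 2))
      (pd 2 (fun y => -∫ s in Ioi (0:ℝ), ζ (y + s • ev 2)) y) y (ev 2) :=
    ((hsm.differentiable (by norm_num) y).hasFDerivAt).hasLineDerivAt (ev 2)
  have h2 : HasDerivAt (fun t : ℝ => (∫ s in (0:ℝ)..t, ζ (y + s • ev 2)) - ∫ s in Ioi (0:ℝ), ζ (y + s • ev 2))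
      (ζ (y + (0 : ℝ) • ev 2)) 0 := by
    refine HasDerivAt.sub_const _ ?_
    exact intervalIntegral.integral_hasDerivAt_right ((hcont y).intervalIntegrable _ _)
      ((hcont y).stronglyMeasurableAtFilter _ _) (hcont y).continuousAt
  have h3 : (fun t : ℝ => -∫ s in Ioi (0:ℝ), ζ (y + t • ev 2 + s • ev 2))
      = fun t : ℝ => (∫ s in (0:ℝ)..t, ζ (y + s • ev 2)) - ∫ s in Ioi (0:ℝ), ζ (y + s • ev 2) := by
    ext t
    have h4 := intervalIntegral.integral_interval_add_Ioi (μ := volume) (a := 0) (b := t)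
      (hint y).integrableOn (hint y).integrableOn
    have h5 : ∫ s in Ioi (0:ℝ), ζ (y + t • ev 2 + s • ev 2) = ∫ s in Ioi t, ζ (y + s • ev 2) := by
      have h6 := (measurePreserving_add_right (volume : Measure ℝ) t).setIntegral_preimage_emb
        (measurableEmbedding_addRight t) (fun s : ℝ => ζ (y + s • ev 2)) (Ioi t)
      rw [preimage_add_const_Ioi, sub_self] at h6
      rw [← h6]
      refine setIntegral_congr_fun measurableSet_Ioi fun s _ => ?_
      show ζ (y + t • ev 2 + s • ev 2) = ζ (y + (s + t) • ev 2)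
      rw [add_assoc, ← add_smul, add_comm t s]
    rw [h5]; linarith
  rw [HasLineDerivAt, h3] at h1
  have h7 := h1.unique h2
  rw [h7]; simp


lemma int_pd_zero {F : E → ℝ} (hF : ContDiff ℝ 1 F) (hc : HasCompactSupport F) (i : Fin 3) :
    ∫ y, pd i F y = 0 := by
  have hd : Differentiable ℝ F := hF.differentiable (by norm_num)
  have hcf : Continuous (fderiv ℝ F) := hF.continuous_fderiv (by norm_num)
  have h1 : Integrable (fun y => fderiv ℝ F y (ev i)) :=
    (hcf.clm_apply continuous_const).integrable_of_hasCompactSupport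
      (hc.fderiv_apply (𝕜 := ℝ) (ev i))
  have h := integral_mul_fderiv_eq_neg_fderiv_mul_of_integrable (μ := (volume : Measure E)) (f := F)
    (g := fun _ => (1 : ℝ)) (v := ev i) (by simpa using h1) (by simp)
    (by simpa using hd.continuous.integrable_of_hasCompactSupport hc) (fun x _ => hd x) (fun x _ => differentiableAt_const _)
  simp at h
  exact h

lemma pd_eq_zero_of_invariant {f : E → ℝ} {y : E} {i : Fin 3} (hf : DifferentiableAt ℝ f y)
    (h : ∀ t : ℝ, f (y + t • ev i) = f y) : pd i f y = 0 := by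
  have h1 : HasLineDerivAt ℝ f (pd i f y) y (ev i) := hf.hasFDerivAt.hasLineDerivAt (ev i)
  rw [HasLineDerivAt] at h1
  have h2 : (fun t : ℝ => f (y + t • ev i)) = fun _ => f y := by ext t; exact h t
  rw [h2] at h1
  exact h1.unique (hasDerivAt_const _ _)

/-- cutoffs in the last variable -/
noncomputable def kap (n : ℕ) (y : E) : ℝ := Real.smoothTransition ((n : ℝ) * y 2 - 1)

lemma kap_smooth (n : ℕ) : ContDiff ℝ ∞ (kap n) := by
  unfold kap
  exact Real.smoothTransition.contDiff.comp (by fun_prop)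

lemma kap_bd (n : ℕ) (y : E) : 0 ≤ kap n y ∧ kap n y ≤ 1 :=
  ⟨Real.smoothTransition.nonneg _, Real.smoothTransition.le_one _⟩

lemma kap_tendsto {y : E} (hy : 0 < y 2) : Tendsto (fun n => kap n y) atTop (𝓝 1) := by
  have h1 : Tendsto (fun n : ℕ => (n : ℝ) * y 2) atTop atTop :=
    tendsto_natCast_atTop_atTop.atTop_mul_const hy
  have h2 : ∀ᶠ n : ℕ in atTop, 2 ≤ (n : ℝ) * y 2 := h1.eventually_ge_atTop 2
  refine tendsto_const_nhds.congr' ?_
  filter_upwards [h2] with n hn
  exact (Real.smoothTransition.one_of_one_le (by linarith)).symm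

lemma kap_pd (n : ℕ) (y : E) {i : Fin 3} (hi : i ≠ 2) : pd i (kap n) y = 0 := by
  refine pd_eq_zero_of_invariant ((kap_smooth n).differentiable (by norm_num) y) fun t => ?_
  simp only [kap]
  rw [coord_add y t hi]

lemma kap_zero_near (n : ℕ) {y : E} (hy : y 2 ≤ 0) : ∀ᶠ z in 𝓝 y, kap n z = 0 := by
  have h1 : Continuous fun z : E => (n : ℝ) * z 2 - 1 := by fun_prop
  have h2 : ∀ᶠ z in 𝓝 y, (n : ℝ) * z 2 - 1 < 0 := by
    refine h1.continuousAt.eventually_lt_const ?_
    have : (n : ℝ) * y 2 ≤ 0 := mul_nonpos_of_nonneg_of_nonpos (Nat.cast_nonneg n) hy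
    linarith
  filter_upwards [h2] with z hz
  exact Real.smoothTransition.zero_of_nonpos hz.le

/-- tangential integration by parts -/
lemma tang_parts {r ρ : ℝ} (hρr : ρ < r) {P φ : E → ℝ} (hP : ContDiffOn ℝ ∞ P (HB r)) (hφ : ContDiff ℝ ∞ φ)
    (hφz : ∀ y ∈ Up, ρ ≤ ‖y‖ → φ y = 0) {i : Fin 3} (hi : i ≠ 2)
    (h1 : IntegrableOn (fun y => P y * pd i φ y) (HB r)) (h2 : IntegrableOn (fun y => pd i P y * φ y) (HB r)) :
    ∫ y in HB r, (P y * pd i φ y + pd i P y * φ y) = 0 := by
  have hPat : ∀ y ∈ HB r, ContDiffAt ℝ ∞ P y := fun y hy => hP.contDiffAt ((isOpen_HB r).mem_nhds hy)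
  have key : ∀ n : ℕ, ∫ y in HB r, kap n y * (P y * pd i φ y + pd i P y * φ y) = 0 := by
    intro n
    have hout : ∀ y, y ∉ HB r → ∀ᶠ z in 𝓝 y, kap n z * (P z * φ z) = 0 := by
      intro y hy
      by_cases h0 : y 2 ≤ 0
      · filter_upwards [kap_zero_near n h0] with z hz
        rw [hz, zero_mul]
      · push Not at h0
        have hn : r ≤ ‖y‖ := by
          by_contra hc
          push Not at hc
          exact hy ⟨hc, h0⟩
        have e1 : ∀ᶠ z in 𝓝 y, ρ < ‖z‖ := continuous_norm.continuousAt.eventually_const_lt (by linarith)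
        have e2 : ∀ᶠ z in 𝓝 y, z ∈ Up := isOpen_Up.mem_nhds h0
        filter_upwards [e1, e2] with z hz1 hz2
        rw [hφz z hz2 hz1.le]; ring
    have hsm : ContDiff ℝ 1 fun y => kap n y * (P y * φ y) := by
      rw [contDiff_iff_contDiffAt]
      intro y
      by_cases hy : y ∈ HB r
      · have := ((kap_smooth n).contDiffAt (x := y)).mul ((hPat y hy).mul hφ.contDiffAt)
        exact this.of_le (by norm_num)
      · exact (contDiffAt_const (c := (0 : ℝ))).congr_of_eventuallyEq (hout y hy)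
    have hcs : HasCompactSupport fun y => kap n y * (P y * φ y) := by
      refine HasCompactSupport.of_support_subset_isCompact (isCompact_closedBall (0 : E) r) fun y hy => ?_
      by_contra hn
      apply hy
      have : y ∉ HB r := fun h => hn (by rw [mem_closedBall_zero_iff]; exact h.1.le)
      exact (hout y this).self_of_nhds
    have h3 := int_pd_zero hsm hcs i
    have h4 : ∀ y ∈ HB r, pd i (fun y => kap n y * (P y * φ y)) y = kap n y * (P y * pd i φ y + pd i P y * φ y) := by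
      intro y hy
      have d1 : DifferentiableAt ℝ (kap n) y := (kap_smooth n).differentiable (by norm_num) y
      have d2 : DifferentiableAt ℝ P y := (hPat y hy).differentiableAt (by norm_num)
      have d3 : DifferentiableAt ℝ φ y := hφ.differentiable (by norm_num) y
      rw [pd_mul (f := kap n) (g := fun y => P y * φ y) d1 (d2.mul d3), kap_pd n y hi, pd_mul d2 d3]
      ring
    have h5 : ∀ y, y ∉ HB r → pd i (fun y => kap n y * (P y * φ y)) y = 0 := fun y hy =>
      pd_of_eventually_zero (hout y hy) i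
    rw [← setIntegral_eq_integral_of_forall_compl_eq_zero h5] at h3
    rw [← h3]
    exact setIntegral_congr_fun (isOpen_HB r).measurableSet fun y hy => (h4 y hy).symm
  have hint : Integrable (fun y => P y * pd i φ y + pd i P y * φ y) (volume.restrict (HB r)) := h1.add h2
  have hlim := tendsto_integral_of_dominated_convergence (μ := volume.restrict (HB r))
    (F := fun n y => kap n y * (P y * pd i φ y + pd i P y * φ y)) (f := fun y => P y * pd i φ y + pd i P y * φ y)
    (fun y => ‖P y * pd i φ y + pd i P y * φ y‖)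
    (fun n => ((kap_smooth n).continuous.aestronglyMeasurable).mul hint.1) hint.norm
    (fun n => ae_of_all _ fun y => by
      rw [norm_mul]
      refine mul_le_of_le_one_left (norm_nonneg _) ?_
      rw [Real.norm_of_nonneg (kap_bd n y).1]
      exact (kap_bd n y).2)
    (ae_restrict_of_forall_mem (isOpen_HB r).measurableSet fun y hy => by
      have := (kap_tendsto hy.2).mul_const (P y * pd i φ y + pd i P y * φ y)
      simpa using this)
  simp only [key] at hlim
  exact (tendsto_nhds_unique hlim tendsto_const_nhds)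


lemma volHB_lt_top (r : ℝ) : volume (HB r) < ⊤ := by
  refine (measure_mono (?_ : HB r ⊆ ball 0 r)).trans_lt measure_ball_lt_top
  intro y hy
  rw [mem_ball_zero_iff]; exact hy.1

lemma memLp_cont_HB (r : ℝ) {f : E → ℝ} (hf : Continuous f) : MemLp f 2 (volume.restrict (HB r)) := by
  have : IsFiniteMeasure ((volume : Measure E).restrict (HB r)) := ⟨by simpa using volHB_lt_top r⟩
  obtain ⟨C, hC⟩ := (isCompact_closedBall (0 : E) r).exists_bound_of_continuousOn hf.continuousOn
  refine MemLp.of_bound hf.aestronglyMeasurable C (ae_restrict_of_forall_mem (isOpen_HB r).measurableSet fun y hy => ?_)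
  exact hC y (by rw [mem_closedBall_zero_iff]; exact hy.1.le)

/-- conormal components -/
noncomputable def Pc (A : E → Matrix (Fin 3) (Fin 3) ℝ) (w : E → ℝ) (i : Fin 3) (y : E) : ℝ :=
  ∑ l, A y i l * pd l w y

section
variable {A : E → Matrix (Fin 3) (Fin 3) ℝ} {r : ℝ} {w : E → ℝ}

lemma HBball (hr : 0 < r) {y : E} (hy : y ∈ HB r) : y ∈ ball (0 : E) (2 * r) := by
  rw [mem_ball_zero_iff]; have := hy.1; linarith

lemma Pc_smooth (H : HalfSol A r w) (i : Fin 3) : ContDiffOn ℝ ∞ (Pc A w i) (HB r) := by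
  unfold Pc
  refine ContDiffOn.sum fun l _ => ?_
  exact ((H.sm i l).mono fun y hy => HBball H.rpos hy).mul (contDiffOn_pd (isOpen_HB r) H.smw l)

lemma Pc_L2 (H : HalfSol A r w) (i : Fin 3) : MemLp (Pc A w i) 2 (volume.restrict (HB r)) := by
  obtain ⟨a, b, ha, hb, hA, hdA⟩ := coeff_bounds H
  have hp : ∀ i, MemLp (pd i w) 2 (volume.restrict (HB r)) := (memLp_gr_iff w).1 H.g2
  unfold Pc
  refine memLp_finsetSum _ fun l _ => ?_
  exact memLp_bdd_mul (isOpen_HB r).measurableSet ((H.sm i l).continuousOn.mono fun y hy => HBball H.rpos hy) a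
    (fun y hy => hA y hy.1.le i l) (hp l)

lemma pdPc_L2 (h : T_RG1) (H : HalfSol A r w) {i : Fin 3} (hi : i ≠ 2) :
    MemLp (pd i (Pc A w i)) 2 (volume.restrict (HB (3 * r / 4))) := by
  obtain ⟨a, b, ha, hb, hA, hdA⟩ := coeff_bounds H
  have hr := H.rpos
  have hS : MeasurableSet (HB (3 * r / 4)) := (isOpen_HB _).measurableSet
  have hsub : HB (3 * r / 4) ⊆ HB r := HB_mono (by linarith)
  have hcb : closedBall (0 : E) r ⊆ ball 0 (2 * r) := closedBall_subset_ball (by linarith)
  have hp : ∀ i, MemLp (pd i w) 2 (volume.restrict (HB (3 * r / 4))) := fun i =>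
    ((memLp_gr_iff w).1 H.g2 i).mono_measure (Measure.restrict_mono hsub le_rfl)
  have hAc : ∀ l, ContDiffOn ℝ ∞ (pd i fun y => A y i l) (ball 0 (2 * r)) := fun l =>
    contDiffOn_pd isOpen_ball (H.sm i l) i
  have h1 : MemLp (fun y => ∑ l, (A y i l * pd i (pd l w) y + pd i (fun y => A y i l) y * pd l w y)) 2
      (volume.restrict (HB (3 * r / 4))) := by
    refine memLp_finsetSum _ fun l _ => MemLp.add ?_ ?_
    · exact memLp_bdd_mul hS ((H.sm i l).continuousOn.mono fun y hy => HBball hr (hsub hy)) a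
        (fun y hy => hA y (hsub hy).1.le i l) (h A r w H i l hi)
    · obtain ⟨C, hC⟩ := (isCompact_closedBall (0 : E) r).exists_bound_of_continuousOn ((hAc l).continuousOn.mono hcb)
      exact memLp_bdd_mul hS ((hAc l).continuousOn.mono fun y hy => HBball hr (hsub hy)) C
        (fun y hy => hC y (by rw [mem_closedBall_zero_iff]; exact (hsub hy).1.le)) (hp l)
  refine h1.ae_eq (ae_restrict_of_forall_mem hS fun y hy => ?_)
  have dA : ∀ l, DifferentiableAt ℝ (fun y => A y i l) y := fun l =>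
    ((H.sm i l).contDiffAt (isOpen_ball.mem_nhds (HBball hr (hsub hy)))).differentiableAt (by norm_num)
  have dw : ∀ l, DifferentiableAt ℝ (pd l w) y := fun l =>
    ((contDiffOn_pd (isOpen_HB r) H.smw l).contDiffAt ((isOpen_HB r).mem_nhds (hsub hy))).differentiableAt (by norm_num)
  show ∑ l, (A y i l * pd i (pd l w) y + pd i (fun y => A y i l) y * pd l w y) = pd i (Pc A w i) y
  have e : pd i (Pc A w i) y = ∑ l, pd i (fun y => A y i l * pd l w y) y := by
    have hs : HasFDerivAt (Pc A w i) (∑ l, fderiv ℝ (fun y => A y i l * pd l w y) y) y := by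
      unfold Pc
      exact HasFDerivAt.fun_sum fun l _ => ((dA l).mul (dw l)).hasFDerivAt
    show fderiv ℝ (Pc A w i) y (ev i) = _
    rw [hs.fderiv, sum_apply]
    rfl
  rw [e]
  refine Finset.sum_congr rfl fun l _ => ?_
  rw [pd_mul (dA l) (dw l)]; ring

/-- tangential divergence -/
noncomputable def Dt (A : E → Matrix (Fin 3) (Fin 3) ℝ) (w : E → ℝ) (y : E) : ℝ :=
  pd 0 (Pc A w 0) y + pd 1 (Pc A w 1) y

/-- thin sets -/
def Gd (r d : ℝ) : Set E := HB (r / 2) ∩ {y | y 2 < d}

lemma isOpen_Gd (r d : ℝ) : IsOpen (Gd r d) :=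
  (isOpen_HB _).inter (isOpen_lt (by fun_prop) continuous_const)

lemma shadow {r d s : ℝ} (hs : 0 ≤ s) {y : E} (hy : y ∈ Up) (h : y + s • ev 2 ∈ Gd r d) :
    y ∈ Gd r d ∧ s ≤ d := by
  obtain ⟨⟨h1, h2⟩, h3⟩ := h
  have hy2 : 0 < y 2 := hy
  have e2 : (y + s • ev 2) 2 = y 2 + s := by simp
  have e0 : (y + s • ev 2) 0 = y 0 := by simp
  have e1 : (y + s • ev 2) 1 = y 1 := by simp
  have h3' : y 2 + s < d := by rw [← e2]; exact h3
  have hn : ‖y‖ ≤ ‖y + s • ev 2‖ := by
    rw [EuclideanSpace.norm_eq, EuclideanSpace.norm_eq]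
    refine Real.sqrt_le_sqrt ?_
    rw [Fin.sum_univ_three, Fin.sum_univ_three, e0, e1, e2]
    simp only [Real.norm_eq_abs, sq_abs]
    nlinarith
  exact ⟨⟨⟨lt_of_le_of_lt hn h1, hy2⟩, show y 2 < d by linarith⟩, by linarith⟩

lemma test_ineq (h : T_RG1) (H : HalfSol A r w) {d : ℝ} (hd : 0 < d) {ζ : E → ℝ} (hζ : ContDiff ℝ ∞ ζ)
    (hc : HasCompactSupport ζ) (hs : tsupport ζ ⊆ Gd r d) (h1 : ∀ y, |ζ y| ≤ 1) :
    ∫ y in HB r, Pc A w 2 y * ζ y ≤ d * ∫ y in Gd r d, |Dt A w y| := by
  have hr := H.rpos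
  obtain ⟨hsm, hpd2⟩ := exists_primitive hζ hc
  set φ : E → ℝ := fun y => -∫ s in Ioi (0:ℝ), ζ (y + s • ev 2) with hφ
  have hζ0 : ∀ y, y ∉ Gd r d → ζ y = 0 := fun y hy => image_eq_zero_of_notMem_tsupport fun h => hy (hs h)
  have hφz : ∀ y ∈ Up, y ∉ Gd r d → φ y = 0 := by
    intro y hy hn
    have : ∫ s in Ioi (0:ℝ), ζ (y + s • ev 2) = 0 := by
      refine setIntegral_eq_zero_of_forall_eq_zero fun s hs' => hζ0 _ fun h => hn (shadow (le_of_lt hs') hy h).1
    simp only [hφ, this, neg_zero]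
  have hφd : ∀ y ∈ Up, |φ y| ≤ d := by
    intro y hy
    have e : ∫ s in Ioi (0:ℝ), ζ (y + s • ev 2) = ∫ s in Ioc (0:ℝ) d, ζ (y + s • ev 2) := by
      refine setIntegral_eq_of_subset_of_forall_sdiff_eq_zero measurableSet_Ioi Ioc_subset_Ioi_self fun s hs' => ?_
      refine hζ0 _ fun h => hs'.2 ⟨hs'.1, (shadow (le_of_lt hs'.1) hy h).2⟩
    have hb : ‖∫ s in Ioc (0:ℝ) d, ζ (y + s • ev 2)‖ ≤ 1 * (volume (Ioc (0:ℝ) d)).toReal := by
      refine norm_setIntegral_le_of_norm_le_const (by simp) fun s _ => h1 _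
    rw [Real.volume_Ioc, sub_zero, ENNReal.toReal_ofReal hd.le, one_mul] at hb
    simp only [hφ]
    rw [abs_neg, e]; exact hb
  have hφz' : ∀ y ∈ Up, r / 2 ≤ ‖y‖ → φ y = 0 := fun y hy hn =>
    hφz y hy fun h => by have := h.1.1; linarith
  have hpdc : ∀ i, Continuous (pd i φ) := fun i =>
    (hsm.continuous_fderiv (by norm_num)).clm_apply continuous_const
  have hφL : MemLp φ 2 (volume.restrict (HB r)) := memLp_cont_HB r hsm.continuous
  have hpdL : ∀ i, MemLp (pd i φ) 2 (volume.restrict (HB r)) := fun i => memLp_cont_HB r (hpdc i)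
  have hw := H.weak φ (r / 2) (by linarith) hsm.contDiffOn hφL ((memLp_gr_iff φ).2 hpdL)
    (fun y hy hn => hφz' y hy.2 hn)
  have hPL := Pc_L2 H
  have Ip : ∀ i, Integrable (fun y => Pc A w i y * pd i φ y) (volume.restrict (HB r)) := fun i =>
    (hPL i).integrable_mul (hpdL i)
  have e1 : ∫ y in HB r, (Pc A w 0 y * pd 0 φ y + Pc A w 1 y * pd 1 φ y + Pc A w 2 y * ζ y) = 0 := by
    rw [← hw]
    refine setIntegral_congr_fun (isOpen_HB r).measurableSet fun y _ => ?_
    show Pc A w 0 y * pd 0 φ y + Pc A w 1 y * pd 1 φ y + Pc A w 2 y * ζ y = _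
    rw [← hpd2 y]
    simp only [Pc, Fin.sum_univ_three]
    rw [H.symm y 1 0, H.symm y 2 0, H.symm y 2 1]
    ring
  have hsub : HB (3 * r / 4) ⊆ HB r := HB_mono (by linarith)
  have Id : ∀ i : Fin 3, i ≠ 2 → IntegrableOn (fun y => pd i (Pc A w i) y * φ y) (HB r) := by
    intro i hi
    have h2 : IntegrableOn (fun y => pd i (Pc A w i) y * φ y) (HB (3 * r / 4)) :=
      (pdPc_L2 h H hi).integrable_mul (hφL.mono_measure (Measure.restrict_mono hsub le_rfl))
    refine h2.of_forall_sdiff_eq_zero (isOpen_HB r).measurableSet fun y hy => ?_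
    rw [hφz y hy.1.2 fun hG => hy.2 ⟨by have := hG.1.1; linarith, hG.1.2⟩, mul_zero]
  have t0 := tang_parts (ρ := r / 2) (by linarith) (Pc_smooth H 0) hsm hφz' (i := 0) (by decide) (Ip 0) (Id 0 (by decide))
  have t1 := tang_parts (ρ := r / 2) (by linarith) (Pc_smooth H 1) hsm hφz' (i := 1) (by decide) (Ip 1) (Id 1 (by decide))
  have I2 : Integrable (fun y => Pc A w 2 y * ζ y) (volume.restrict (HB r)) := by
    have := Ip 2
    refine this.congr (ae_of_all _ fun y => ?_)
    simp only [hpd2 y]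
  have e2 : ∫ y in HB r, Pc A w 2 y * ζ y = ∫ y in HB r, Dt A w y * φ y := by
    have s0 := integral_add (Ip 0) (Id 0 (by decide))
    have s1 := integral_add (Ip 1) (Id 1 (by decide))
    have s2 := integral_add ((Ip 0).add (Ip 1)) I2
    have s3 := integral_add (Ip 0) (Ip 1)
    have s4 := integral_add (Id 0 (by decide)) (Id 1 (by decide))
    have s5 : ∫ y in HB r, Dt A w y * φ y
        = ∫ y in HB r, (pd 0 (Pc A w 0) y * φ y + pd 1 (Pc A w 1) y * φ y) := by
      refine integral_congr_ae (ae_of_all _ fun y => ?_)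
      simp only [Dt]; ring
    simp only [Pi.add_apply] at s2
    rw [e1] at s2
    rw [t0] at s0
    rw [t1] at s1
    rw [s3] at s2
    rw [s5, s4]
    linarith
  rw [e2]
  have ID : IntegrableOn (Dt A w) (Gd r d) := by
    have : IsFiniteMeasure ((volume : Measure E).restrict (HB (3 * r / 4))) := ⟨by simpa using volHB_lt_top _⟩
    have h3 : Integrable (Dt A w) (volume.restrict (HB (3 * r / 4))) :=
      ((pdPc_L2 h H (i := 0) (by decide)).add (pdPc_L2 h H (i := 1) (by decide))).integrable (by norm_num)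
    have hG34 : Gd r d ⊆ HB (3 * r / 4) := fun y hy => ⟨by have := hy.1.1; linarith, hy.1.2⟩
    exact h3.mono_measure (Measure.restrict_mono hG34 le_rfl)
  have hGsub : Gd r d ⊆ HB r := fun y hy => ⟨by have := hy.1.1; linarith, hy.1.2⟩
  have e3 : ∫ y in HB r, Dt A w y * φ y = ∫ y in Gd r d, Dt A w y * φ y := by
    refine setIntegral_eq_of_subset_of_forall_sdiff_eq_zero (isOpen_HB r).measurableSet hGsub fun y hy => ?_
    rw [hφz y hy.1.2 hy.2, mul_zero]
  rw [e3, ← integral_const_mul]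
  have IDφ : IntegrableOn (fun y => Dt A w y * φ y) (Gd r d) := by
    have : IntegrableOn (fun y => Dt A w y * φ y) (HB r) := by
      refine ((Id 0 (by decide)).add (Id 1 (by decide))).congr (ae_of_all _ fun y => ?_)
      simp only [Dt, Pi.add_apply]; ring
    exact this.mono_set hGsub
  refine setIntegral_mono_on IDφ (ID.abs.const_mul d) (isOpen_Gd r d).measurableSet fun y hy => ?_
  calc Dt A w y * φ y ≤ |Dt A w y * φ y| := le_abs_self _
    _ = |Dt A w y| * |φ y| := abs_mul _ _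
    _ ≤ |Dt A w y| * d := mul_le_mul_of_nonneg_left (hφd y hy.1.2) (abs_nonneg _)
    _ = d * |Dt A w y| := mul_comm _ _

end


lemma sqrt_ineq {ε : ℝ} (hε : 0 < ε) (x : ℝ) : |x| - ε ≤ x * (x / Real.sqrt (x ^ 2 + ε ^ 2)) := by
  have h1 : 0 < Real.sqrt (x ^ 2 + ε ^ 2) := Real.sqrt_pos.2 (by positivity)
  have h2 : Real.sqrt (x ^ 2 + ε ^ 2) ≤ |x| + ε := by
    rw [Real.sqrt_le_left (by positivity)]
    nlinarith [sq_abs x, abs_nonneg x]
  rw [← mul_div_assoc, le_div_iff₀ h1]
  by_cases h : |x| ≤ ε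
  · have : (|x| - ε) * Real.sqrt (x ^ 2 + ε ^ 2) ≤ 0 := mul_nonpos_of_nonpos_of_nonneg (by linarith) h1.le
    nlinarith [mul_self_nonneg x]
  · push Not at h
    calc (|x| - ε) * Real.sqrt (x ^ 2 + ε ^ 2) ≤ (|x| - ε) * (|x| + ε) :=
          mul_le_mul_of_nonneg_left h2 (by linarith)
      _ = x * x - ε ^ 2 := by nlinarith [sq_abs x]
      _ ≤ x * x := by nlinarith [sq_nonneg ε]

section
variable {A : E → Matrix (Fin 3) (Fin 3) ℝ} {r : ℝ} {w : E → ℝ}

lemma compact_ineq (h : T_RG1) (H : HalfSol A r w) {d : ℝ} (hd : 0 < d) {K : Set E} (hK : IsCompact K)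
    (hKG : K ⊆ Gd r d) : ∫ y in K, |Pc A w 2 y| ≤ d * ∫ y in Gd r d, |Dt A w y| := by
  have hr := H.rpos
  have hGsub : Gd r d ⊆ HB r := fun y hy => ⟨by have := hy.1.1; linarith, hy.1.2⟩
  obtain ⟨χ, hχ1, hχ2, hχ3, hχ4, hχ5⟩ := exists_bump hK (isOpen_Gd r d) hKG
  have hPs := Pc_smooth H 2
  have hfin : IsFiniteMeasure ((volume : Measure E).restrict (HB r)) := ⟨by simpa using volHB_lt_top _⟩
  have hP1 : IntegrableOn (Pc A w 2) (HB r) := (Pc_L2 H 2).integrable (by norm_num)
  refine le_of_forall_pos_le_add fun ε' hε' => ?_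
  set V : ℝ := (volume (HB r)).toReal with hV
  have hV0 : 0 ≤ V := ENNReal.toReal_nonneg
  set ε : ℝ := ε' / (V + 1) with hε
  have hεp : 0 < ε := by positivity
  set ζ : E → ℝ := fun y => χ y * (Pc A w 2 y / Real.sqrt ((Pc A w 2 y) ^ 2 + ε ^ 2)) with hζ
  have hzero : ∀ y, y ∉ tsupport χ → ζ =ᶠ[𝓝 y] fun _ => 0 := by
    intro y hy
    have : χ =ᶠ[𝓝 y] 0 := notMem_tsupport_iff_eventuallyEq.1 hy
    filter_upwards [this] with z hz
    simp [hζ, hz]
  have hζsm : ContDiff ℝ ∞ ζ := by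
    rw [contDiff_iff_contDiffAt]
    intro y
    by_cases hy : y ∈ tsupport χ
    · have hat : ContDiffAt ℝ ∞ (Pc A w 2) y := hPs.contDiffAt ((isOpen_HB r).mem_nhds (hGsub (hχ3 hy)))
      have hne : (Pc A w 2 y) ^ 2 + ε ^ 2 ≠ 0 := by positivity
      refine hχ1.contDiffAt.mul (hat.div (((hat.pow 2).add contDiffAt_const).sqrt hne) ?_)
      exact (Real.sqrt_pos.2 (by positivity)).ne'
    · exact contDiffAt_const.congr_of_eventuallyEq (hzero y hy)
  have hζsupp : tsupport ζ ⊆ tsupport χ := by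
    intro y hy
    by_contra hn
    exact (notMem_tsupport_iff_eventuallyEq.2 (hzero y hn)) hy
  have hζc : HasCompactSupport ζ := hχ2.of_isClosed_subset (isClosed_tsupport _) hζsupp
  have hζ1 : ∀ y, |ζ y| ≤ 1 := by
    intro y
    simp only [hζ]
    have h1 : 0 < Real.sqrt ((Pc A w 2 y) ^ 2 + ε ^ 2) := Real.sqrt_pos.2 (by positivity)
    rw [abs_mul, abs_div, abs_of_nonneg (hχ4 y).1, abs_of_pos h1]
    have h2 : |Pc A w 2 y| / Real.sqrt ((Pc A w 2 y) ^ 2 + ε ^ 2) ≤ 1 := by
      rw [div_le_one h1]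
      refine Real.abs_le_sqrt ?_
      nlinarith [sq_nonneg ε]
    calc χ y * (|Pc A w 2 y| / Real.sqrt ((Pc A w 2 y) ^ 2 + ε ^ 2)) ≤ 1 * 1 :=
          mul_le_mul (hχ4 y).2 h2 (by positivity) (by norm_num)
      _ = 1 := one_mul 1
  have hti := test_ineq h H hd hζsm hζc (hζsupp.trans hχ3) hζ1
  -- lower bound
  have Iχ : IntegrableOn (fun y => χ y * |Pc A w 2 y|) (HB r) := by
    refine hP1.abs.bdd_mul (c := 1) hχ1.continuous.aestronglyMeasurable (ae_of_all _ fun y => ?_)
    rw [Real.norm_of_nonneg (hχ4 y).1]; exact (hχ4 y).2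
  have Iζ : IntegrableOn (fun y => Pc A w 2 y * ζ y) (HB r) := by
    have : IntegrableOn (fun y => ζ y * Pc A w 2 y) (HB r) :=
      hP1.bdd_mul (c := 1) hζsm.continuous.aestronglyMeasurable (ae_of_all _ fun y => hζ1 y)
    refine this.congr (ae_of_all _ fun y => ?_)
    simp only [mul_comm]
  have hlow : ∫ y in HB r, (χ y * |Pc A w 2 y| - ε) ≤ ∫ y in HB r, Pc A w 2 y * ζ y := by
    refine setIntegral_mono_on (Iχ.sub (integrable_const ε)) Iζ (isOpen_HB r).measurableSet fun y _ => ?_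
    have h1 := mul_le_mul_of_nonneg_left (sqrt_ineq hεp (Pc A w 2 y)) (hχ4 y).1
    have h2 : χ y * ε ≤ ε := by
      have := mul_le_mul_of_nonneg_right (hχ4 y).2 hεp.le
      linarith
    simp only [hζ]
    nlinarith
  have hsub2 := integral_sub Iχ (integrable_const (μ := volume.restrict (HB r)) ε)
  rw [hsub2] at hlow
  have hconst : ∫ y in HB r, ε = V * ε := by
    rw [setIntegral_const]; simp [hV, Measure.real]
  rw [hconst] at hlow
  have hKle : ∫ y in K, |Pc A w 2 y| ≤ ∫ y in HB r, χ y * |Pc A w 2 y| := by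
    calc ∫ y in K, |Pc A w 2 y| = ∫ y in K, χ y * |Pc A w 2 y| :=
          setIntegral_congr_fun hK.measurableSet fun y hy => by simp only [hχ5 y hy, one_mul]
      _ ≤ _ := setIntegral_mono_set Iχ (ae_of_all _ fun y => mul_nonneg (hχ4 y).1 (abs_nonneg _))
          (LE.le.eventuallyLE (hKG.trans hGsub))
  have hVε : V * ε ≤ ε' := by
    rw [hε, ← mul_div_assoc, div_le_iff₀ (by positivity)]
    nlinarith
  linarith

lemma thin_ineq (h : T_RG1) (H : HalfSol A r w) {d : ℝ} (hd : 0 < d) :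
    ∫ y in Gd r d, |Pc A w 2 y| ≤ d * ∫ y in Gd r d, |Dt A w y| := by
  have hr := H.rpos
  have hGsub : Gd r d ⊆ HB r := fun y hy => ⟨by have := hy.1.1; linarith, hy.1.2⟩
  have hfin : IsFiniteMeasure ((volume : Measure E).restrict (HB r)) := ⟨by simpa using volHB_lt_top _⟩
  have hP1 : IntegrableOn (Pc A w 2) (HB r) := (Pc_L2 H 2).integrable (by norm_num)
  obtain ⟨F, hF1, hF2, hF3, hF4⟩ := (isOpen_Gd r d).exists_iUnion_isClosed
  have h1 : Tendsto (fun n => ∫ y in F n, |Pc A w 2 y|) atTop (𝓝 (∫ y in ⋃ n, F n, |Pc A w 2 y|)) :=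
    tendsto_setIntegral_of_monotone (fun n => (hF1 n).measurableSet) hF4 (by
      rw [hF3]; exact (IntegrableOn.mono_set hP1 hGsub).abs)
  rw [hF3] at h1
  refine le_of_tendsto' h1 fun n => compact_ineq h H hd ?_ (hF2 n)
  refine (isCompact_closedBall (0 : E) r).of_isClosed_subset (hF1 n) fun y hy => ?_
  rw [mem_closedBall_zero_iff]
  exact (hGsub (hF2 n hy)).1.le

end

theorem rg2 (h : T_RG1) : T_RG2 := by
  intro A r w H
  have hr := H.rpos
  have hfin : IsFiniteMeasure ((volume : Measure E).restrict (HB (3 * r / 4))) := ⟨by simpa using volHB_lt_top _⟩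
  have hD34 : IntegrableOn (Dt A w) (HB (3 * r / 4)) :=
    ((pdPc_L2 h H (i := 0) (by decide)).add (pdPc_L2 h H (i := 1) (by decide))).integrable (by norm_num)
  have hD : IntegrableOn (fun y => |Dt A w y|) (HB (r / 2)) :=
    (hD34.mono_set (HB_mono (by linarith))).abs
  have hlim : Tendsto (fun d : ℝ => ∫ y in Gd r d, |Dt A w y|) (𝓝[>] 0) (𝓝 0) := by
    have h1 : Tendsto (fun d : ℝ => ∫ y in HB (r / 2), ({y : E | y 2 < d}.indicator (fun y => |Dt A w y|)) y)
        (𝓝[>] 0) (𝓝 (∫ y in HB (r / 2), (0 : ℝ))) := by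
      refine tendsto_integral_filter_of_dominated_convergence (fun y => |Dt A w y|) ?_ ?_ hD ?_
      · refine Eventually.of_forall fun d => ?_
        exact hD.1.indicator (isOpen_lt (by fun_prop) continuous_const).measurableSet
      · refine Eventually.of_forall fun d => ae_of_all _ fun y => ?_
        rw [Real.norm_eq_abs]
        by_cases hy : y ∈ {y : E | y 2 < d}
        · rw [indicator_of_mem hy, abs_abs]
        · rw [indicator_of_notMem hy, abs_zero]; exact abs_nonneg _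
      · refine ae_restrict_of_forall_mem (isOpen_HB _).measurableSet fun y hy => ?_
        have hy2 : 0 < y 2 := hy.2
        refine tendsto_const_nhds.congr' ?_
        have : ∀ᶠ d : ℝ in 𝓝[>] 0, d < y 2 :=
          (eventually_lt_nhds hy2).filter_mono nhdsWithin_le_nhds
        filter_upwards [this] with d hd
        rw [indicator_of_notMem]
        simp only [mem_ofPred_eq, not_lt]
        exact hd.le
    simp only [integral_zero] at h1
    refine h1.congr fun d => ?_
    rw [setIntegral_indicator (isOpen_lt (by fun_prop) continuous_const).measurableSet]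
    rfl
  have hb : ∀ᶠ d : ℝ in 𝓝[>] 0, d⁻¹ * ∫ y in HB (r / 2) ∩ {y | y 2 < d}, |∑ l, A y 2 l * pd l w y|
      ≤ ∫ y in Gd r d, |Dt A w y| := by
    filter_upwards [self_mem_nhdsWithin] with d hd
    have hd' : 0 < d := hd
    have := thin_ineq h H hd'
    rw [inv_mul_le_iff₀ hd']
    exact this
  have h0 : ∀ᶠ d : ℝ in 𝓝[>] 0, 0 ≤ d⁻¹ * ∫ y in HB (r / 2) ∩ {y | y 2 < d}, |∑ l, A y 2 l * pd l w y| := by
    filter_upwards [self_mem_nhdsWithin] with d hd
    have hd' : 0 < d := hd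
    exact mul_nonneg (inv_nonneg.2 hd'.le) (integral_nonneg fun _ => abs_nonneg _)
  exact tendsto_of_tendsto_of_tendsto_of_le_of_le' tendsto_const_nhds hlim h0 hb

end Pool.Agent.H30.IC
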