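import Mathlib
import Pool.Agent.H30.IC.RG2

open MeasureTheory Set Filter Topology Metric
open scoped ENNReal NNReal ContDiff RealInnerProductSpace

namespace Pool.Agent.H30.IC

open Pool.Agent.H94.IC

theorem fm2 (hN : T_NLS) (h0 : T_FM0) : T_FM2 := by
  intro Ω S Φ δ h D hΩ hΩb hT hW hD hDΩ hFF
  obtain ⟨hS0, hSc, hSΩ⟩ := (hN Ω S).2 Φ δ hT
  have hSo : IsOpen Sᶜ := hSc.isClosed.isOpen_compl
  have hO : IsOpen (Ω \ S) := hΩ.sdiff hSc.isClosed
  have hDc : IsCompact (closure D) :=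
    Metric.isCompact_of_isClosed_isBounded isClosed_closure (hΩb.subset hDΩ)
  obtain ⟨χ, hχ1, hχ2, hχ3, hχ4, hχ5⟩ := exists_bump hDc hΩ hDΩ
  have hfin : IsFiniteMeasure ((volume : Measure E).restrict Ω) :=
    ⟨by simpa using hΩb.measure_lt_top⟩
  have hhs : ContDiffOn ℝ ∞ h (Ω \ S) := hW.harm.1
  have hhat : ∀ x ∈ Ω \ S, ContDiffAt ℝ ∞ h x := fun x hx => hhs.contDiffAt (hO.mem_nhds hx)
  have hp : ∀ i, MemLp (pd i h) 2 (volume.restrict Ω) := (memLp_gr_iff h).1 hW.g2
  have hatan : ∀ x, |Real.arctan (h x)| ≤ Real.pi / 2 := fun x =>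
    abs_le.2 ⟨by have := Real.neg_pi_div_two_lt_arctan (h x); linarith, (Real.arctan_lt_pi_div_two (h x)).le⟩
  set φ : E → ℝ := fun x => Real.arctan (h x) * χ x with hφ
  have hφs : ContDiffOn ℝ ∞ φ (Ω \ S) :=
    (Real.contDiff_arctan.comp_contDiffOn hhs).mul hχ1.contDiffOn
  have hpdφ : ∀ i, ∀ x ∈ Ω \ S, pd i φ x = χ x * ((1 + h x ^ 2)⁻¹ * pd i h x) + Real.arctan (h x) * pd i χ x := by
    intro i x hx
    have d1 : DifferentiableAt ℝ h x := (hhat x hx).differentiableAt (by norm_num)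
    have d2 : DifferentiableAt ℝ χ x := hχ1.differentiable (by norm_num) x
    have d3 : HasFDerivAt (fun y => Real.arctan (h y)) ((1 + h x ^ 2)⁻¹ • fderiv ℝ h x) x := by
      have := d1.hasFDerivAt.arctan
      simpa [one_div] using this
    rw [hφ, pd_mul d3.differentiableAt d2]
    have e : pd i (fun y => Real.arctan (h y)) x = (1 + h x ^ 2)⁻¹ * pd i h x := by
      simp only [pd]
      rw [d3.fderiv]; simp
    rw [e]; ring
  have hae : ∀ᵐ x ∂(volume.restrict Ω), x ∈ Ω \ S := by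
    have h1 : ∀ᵐ x ∂(volume.restrict Ω), x ∈ Ω := ae_restrict_mem hΩ.measurableSet
    have h2 : ∀ᵐ x ∂(volume.restrict Ω), x ∉ S := by
      refine ae_restrict_of_ae ?_
      rw [ae_iff]; simpa using hS0
    filter_upwards [h1, h2] with x hx1 hx2
    exact ⟨hx1, hx2⟩
  have hhm : AEStronglyMeasurable h (volume.restrict Ω) := hW.l2.1
  have hpdL : ∀ i, MemLp (pd i φ) 2 (volume.restrict Ω) := by
    intro i
    have m1 : MemLp (fun x => χ x * ((1 + h x ^ 2)⁻¹ * pd i h x)) 2 (volume.restrict Ω) := by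
      refine (hp i).of_le_mul (c := 1) ?_ (ae_of_all _ fun x => ?_)
      · refine hχ1.continuous.aestronglyMeasurable.mul (AEStronglyMeasurable.mul ?_ (hp i).1)
        have hc : Continuous fun t : ℝ => (1 + t ^ 2)⁻¹ :=
          Continuous.inv₀ (by fun_prop) fun t => by positivity
        exact hc.comp_aestronglyMeasurable hhm
      · rw [norm_mul, norm_mul, one_mul, Real.norm_of_nonneg (hχ4 x).1, ← mul_assoc]
        refine mul_le_of_le_one_left (norm_nonneg _) ?_
        have h3 : ‖(1 + h x ^ 2)⁻¹‖ ≤ 1 := by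
          rw [Real.norm_of_nonneg (by positivity)]
          exact inv_le_one_of_one_le₀ (by nlinarith [sq_nonneg (h x)])
        calc χ x * ‖(1 + h x ^ 2)⁻¹‖ ≤ 1 * 1 := mul_le_mul (hχ4 x).2 h3 (norm_nonneg _) (by norm_num)
          _ = 1 := one_mul 1
    have hcχ : Continuous (pd i χ) := (hχ1.continuous_fderiv (by norm_num)).clm_apply continuous_const
    obtain ⟨C, hC⟩ := hcχ.bounded_above_of_compact_support (hχ2.fderiv_apply (𝕜 := ℝ) (ev i))
    have m2 : MemLp (fun x => Real.arctan (h x) * pd i χ x) 2 (volume.restrict Ω) := by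
      refine MemLp.of_bound ?_ (Real.pi / 2 * C) (ae_of_all _ fun x => ?_)
      · exact (Real.continuous_arctan.comp_aestronglyMeasurable hhm).mul hcχ.aestronglyMeasurable
      · rw [norm_mul]
        exact mul_le_mul (hatan x) (hC x) (norm_nonneg _) (by positivity)
    refine (m1.add m2).ae_eq ?_
    filter_upwards [hae] with x hx
    rw [hpdφ i x hx]; rfl
  have key := h0 Ω S Φ δ h D hΩ hΩb hT hW hD hFF φ (tsupport χ) hφs
    ⟨Real.pi / 2, fun x => by
      rw [hφ, abs_mul, abs_of_nonneg (hχ4 x).1]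
      calc |Real.arctan (h x)| * χ x ≤ (Real.pi / 2) * 1 :=
            mul_le_mul (hatan x) (hχ4 x).2 (hχ4 x).1 (by positivity)
        _ = Real.pi / 2 := mul_one _⟩
    ((memLp_gr_iff φ).2 hpdL) hχ2 hχ3 (fun x hx => by
      show Real.arctan (h x) * χ x = 0
      rw [image_eq_zero_of_notMem_tsupport hx.2, mul_zero])
  have hDΩ' : D ⊆ Ω := subset_closure.trans hDΩ
  rw [inter_eq_left.2 hDΩ'] at key
  have hDS : IsOpen (D \ S) := hD.sdiff hSc.isClosed
  have hpt : ∀ x ∈ D \ S, ⟪gr h x, gr φ x⟫ = (1 + h x ^ 2)⁻¹ * ‖gr h x‖ ^ 2 := by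
    intro x hx
    have hχ1x : χ x = 1 := hχ5 x (subset_closure hx.1)
    have hχev : ∀ᶠ y in 𝓝 x, χ y = 1 := by
      filter_upwards [hD.mem_nhds hx.1] with y hy
      exact hχ5 y (subset_closure hy)
    have hpdχ : ∀ i, pd i χ x = 0 := by
      intro i
      have e : χ =ᶠ[𝓝 x] fun _ => (1 : ℝ) := hχev
      rw [pd_of_eventuallyEq e]; simp [pd]
    rw [norm_gr_sq, gr_eq_sum φ x, inner_sum]
    rw [Finset.mul_sum]
    refine Finset.sum_congr rfl fun i _ => ?_
    rw [inner_smul_right, hpdφ i x ⟨hDΩ' hx.1, hx.2⟩, hχ1x, hpdχ i, EuclideanSpace.inner_single_right, gr_apply]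
    simp
    ring
  have hae2 : ∀ᵐ x ∂(volume.restrict D), x ∈ D \ S := by
    have h1 : ∀ᵐ x ∂(volume.restrict D), x ∈ D := ae_restrict_mem hD.measurableSet
    have h2 : ∀ᵐ x ∂(volume.restrict D), x ∉ S := by
      refine ae_restrict_of_ae ?_
      rw [ae_iff]; simpa using hS0
    filter_upwards [h1, h2] with x hx1 hx2
    exact ⟨hx1, hx2⟩
  have key2 : ∫ x in D, (1 + h x ^ 2)⁻¹ * ‖gr h x‖ ^ 2 = 0 := by
    rw [← key]
    refine integral_congr_ae ?_
    filter_upwards [hae2] with x hx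
    exact (hpt x hx).symm
  have hint : IntegrableOn (fun x => (1 + h x ^ 2)⁻¹ * ‖gr h x‖ ^ 2) D := by
    have h1 : IntegrableOn (fun x => ‖gr h x‖ ^ 2) Ω := by
      have := hW.g2.norm.integrable_sq
      exact this
    have h2 : IntegrableOn (fun x => (1 + h x ^ 2)⁻¹ * ‖gr h x‖ ^ 2) Ω := by
      refine h1.bdd_mul (c := 1) ?_ (ae_of_all _ fun x => ?_)
      · have hc : Continuous fun t : ℝ => (1 + t ^ 2)⁻¹ :=
          Continuous.inv₀ (by fun_prop) fun t => by positivity
        exact hc.comp_aestronglyMeasurable hhm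
      · rw [Real.norm_of_nonneg (by positivity)]
        exact inv_le_one_of_one_le₀ (by nlinarith [sq_nonneg (h x)])
    exact h2.mono_set hDΩ'
  have hz := (integral_eq_zero_iff_of_nonneg_ae (ae_of_all _ fun x => by positivity) hint).1 key2
  have hz2 : (fun x => gr h x) =ᵐ[volume.restrict (D \ S)] fun _ => (0 : E) := by
    have h3 : ∀ᵐ x ∂(volume.restrict (D \ S)), (1 + h x ^ 2)⁻¹ * ‖gr h x‖ ^ 2 = 0 :=
      ae_mono (Measure.restrict_mono sdiff_subset le_rfl) hz
    filter_upwards [h3] with x hx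
    have h4 : (0 : ℝ) < (1 + h x ^ 2)⁻¹ := by positivity
    have h5 : ‖gr h x‖ ^ 2 = 0 := by
      rcases mul_eq_zero.1 hx with h | h
      · exact absurd h h4.ne'
      · exact h
    simpa using h5
  have hcont : ContinuousOn (fun x => gr h x) (D \ S) := by
    have h6 : (fun x => gr h x) = fun x => ∑ i : Fin 3, pd i h x • ev i := by
      ext1 x; exact gr_eq_sum h x
    rw [h6]
    refine continuousOn_finsetSum _ fun i _ => ?_
    have : ContinuousOn (pd i h) (D \ S) :=
      ((contDiffOn_pd hO hhs i).continuousOn).mono (sdiff_subset_sdiff_left hDΩ')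
    exact this.smul continuousOn_const
  intro x hxD hxS
  exact Measure.eqOn_open_of_ae_eq hz2 hDS hcont continuousOn_const ⟨hxD, hxS⟩

end Pool.Agent.H30.IC
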